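import Pool.Agent.H23.DF.TargetsL
import Pool.Agent.H16.SWX.CD
import Pool.Agent.H19.DM.PI
import Pool.Agent.H3.DF.SV

/-!
# Friable conductors: row DC (the decomposition of the half differences)
-/

set_option autoImplicit false

open NumberField NumberField.InfinitePlace Complex
open scoped nonZeroDivisors

namespace Pool.Agent.H68.DF.DC

open Pool.Agent.H25.HK Pool.Agent.H23.LB Pool.Agent.H23.LC
open Pool.Agent.H28.RC (Rep ft idl)
open Pool.Agent.H29.TC (Gn LC cq dvs AC MC)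
open Pool.Agent.H31.SX (ND RK Gcd LK)
open Pool.Agent.H31.SW (PP)
open Pool.Agent.H81.THC (fi_mono fi_le)
open Pool.Agent.H23.DM (lg5 cm FP Mz PhZ PY D_PI D_SC)
open Pool.Agent.H23.DF
open Pool.Agent.H3.DF.SV (sm sm1 ad sb cop_mem half up se_s' ex_al)

section aux

variable {K : Type} [Field K] [NumberField K]

private lemma le_fin {k : Ideal (𝓞 K)} (hk : k ≠ ⊥) : {e : Ideal (𝓞 K) | k ≤ e}.Finite := by
  refine (Ideal.finite_setOfPred_absNorm_le (S := 𝓞 K) (Ideal.absNorm k)).subset ?_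
  intro a ha
  have h7 : Ideal.absNorm k ≠ 0 := fun h => hk (Ideal.absNorm_eq_zero_iff.1 h)
  exact Nat.le_of_dvd (Nat.pos_of_ne_zero h7) (Ideal.absNorm_dvd_absNorm_of_le ha)

private lemma mem_dvs {k e : Ideal (𝓞 K)} (hk : k ≠ ⊥) (h : k ≤ e) : e ∈ dvs K k := by
  unfold dvs
  rw [dif_pos (le_fin hk), Set.Finite.mem_toFinset]
  exact h

private lemma card_dvs_le {k e : Ideal (𝓞 K)} (hk : k ≠ ⊥) (h : k ≤ e) :
    (dvs K e).card ≤ (dvs K k).card := by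
  have he : e ≠ ⊥ := fun h' => hk (le_bot_iff.mp (h' ▸ h))
  refine Finset.card_le_card ?_
  intro a ha
  unfold dvs at ha
  rw [dif_pos (le_fin he), Set.Finite.mem_toFinset] at ha
  exact mem_dvs hk (h.trans ha)

private lemma one_le_Nf {f : Ideal (𝓞 K)} (hf : f ≠ ⊥) : 1 ≤ Nf K f := by
  unfold Nf
  have h : Ideal.absNorm f ≠ 0 := fun h => hf (Ideal.absNorm_eq_zero_iff.1 h)
  exact_mod_cast Nat.one_le_iff_ne_zero.2 h

private lemma gn_up {F g : Ideal (𝓞 K)} {M : FI K} {x : K} (hg : g ≠ ⊥) (h : g ⊔ F = ⊤)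
    (hx : Gn F ((g : FI K) * M) x) : Gn F M x := by
  obtain ⟨α, hα0, hα, h1⟩ := ex_al hg h
  refine ⟨fi_le g M hx.mem, hx.ne, fun y hy => ?_, fun a j hj => ⟨fun h2 => ?_, fun h2 => ?_⟩⟩
  · obtain ⟨a, ha0, ha⟩ := hx.gen ((α : K) * y) (sm hα hy)
    refine ⟨a, ha0, ?_⟩
    have e1 : y - (a : K) * x = ((1 - α : 𝓞 K) : K) * y + ((α : K) * y - (a : K) * x) := by
      push_cast
      ring
    rw [e1]
    refine ad (sm h1 hy) ?_
    rw [mul_left_comm] at ha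
    exact fi_le g _ ha
  · refine (hx.iff a j hj).1 (cop_mem ?_ h2 (sm1 a hx.mem))
    exact up h le_rfl hj
  · exact sm h2 (fi_le g M hx.mem)

private theorem Co_mono {H F : Ideal (𝓞 K)} {e₁ e₂ C : K → ℂ} {w X X' : ℝ}
    (h : Co H F e₁ e₂ C w X) (hX : X ≤ X') : Co H F e₁ e₂ C w X' where
  per := h.per
  zero := h.zero
  box β hβ X₁ hX₁ := (h.box β hβ X₁ hX₁).trans (mul_le_mul_of_nonneg_right hX (by
    unfold PP
    exact Finset.prod_nonneg fun v _ => pow_nonneg (hβ v).le _))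
  ft := h.ft

private theorem CO_mono {H F : Ideal (𝓞 K)} {ι : Type} {I : Finset ι} {E : ι → K → ℂ}
    {w : ι → ι → ℝ} {D₁ D₁' Z X X' : ℝ} (h : CO H F I E w D₁ Z X) (hD : D₁ ≤ D₁')
    (hX : X ≤ X') : CO H F I E w D₁' Z X' where
  zero := h.zero
  fac := by
    obtain ⟨E₀, Et, h1, h2, h3⟩ := h.fac
    refine ⟨E₀, Et, fun ν hν => (h1 ν hν).trans hD, fun i hi ν hν =>
      ⟨(h2 i hi ν hν).1.trans hD, (h2 i hi ν hν).2⟩, fun i hi j hj => ?_⟩
    obtain ⟨C, hC⟩ := h3 i hi j hj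
    exact ⟨C, Co_mono hC hX⟩

private theorem CO_zero {H F : Ideal (𝓞 K)} {ι : Type} {I : Finset ι}
    {w : ι → ι → ℝ} {D₁ Z X : ℝ} (hw : ∀ i j, 0 ≤ w i j) (hD : 0 ≤ D₁) (hZ : 0 ≤ Z)
    (hX : 0 ≤ X) : CO H F I (fun _ _ => 0) w D₁ Z X where
  zero i _ := by simpa using hZ
  fac := by
    refine ⟨fun _ => 0, fun _ _ => 0, fun ν _ => by simpa using hD, fun i _ ν _ =>
      ⟨by simpa using hD, by simp⟩, fun i _ j _ => ⟨fun _ => 0, ?_, ?_, ?_, ?_⟩⟩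
    · intro x _ t _
      rfl
    · simpa using hw i j
    · intro β hβ X₁ _
      simp only [norm_zero, Finset.sum_const_zero]
      refine mul_nonneg hX ?_
      unfold PP
      exact Finset.prod_nonneg fun v _ => pow_nonneg (hβ v).le _
    · intro X₂ _ ν _
      unfold ft
      simp

private theorem ww_nonneg {r k' s₃ : Ideal (𝓞 K)} {ι : Type} (γ : ι → 𝓞 K) (i j : ι) :
    0 ≤ ww r k' s₃ γ i j := by
  unfold ww
  split_ifs
  · unfold Nf
    positivity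
  · exact le_rfl

private theorem Mz_fac {e f : Ideal (𝓞 K)} (hf : f ≠ ⊥) :
    Mz K e = (f : FI K) * Mz K (e * f) := by
  unfold Mz
  have hf' : (f : FI K) ≠ 0 := by rwa [FractionalIdeal.coeIdeal_ne_zero]
  rw [FractionalIdeal.coeIdeal_mul, mul_inv]
  rw [show (f : FI K) * ((Ideal.span {(2 : 𝓞 K)} : Ideal (𝓞 K)) * ((e : FI K)⁻¹ * (f : FI K)⁻¹)) =
    ((Ideal.span {(2 : 𝓞 K)} : Ideal (𝓞 K)) : FI K) * (e : FI K)⁻¹ * ((f : FI K) * (f : FI K)⁻¹) by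
      ring, mul_inv_cancel₀ hf', mul_one]

private theorem xle {C d d' R N e se W Y S : ℝ} (hC : 0 ≤ C) (hd : 0 ≤ d) (hdd : d ≤ d')
    (hR : 0 ≤ R) (hN : 0 ≤ N) (he : 0 ≤ e) (hse : 0 ≤ se) (hW : 0 < W) (hY : 1 ≤ Y)
    (h3 : S ≤ se ^ 2 * Y) :
    C * (d ^ 3 * R * N * (e * Real.sqrt S) / W) ≤ C * (d' ^ 3 * R * N * (e * se * Y) / W) := by
  have hY0 : 0 ≤ Y := by linarith
  have hd' : 0 ≤ d' := hd.trans hdd
  have h8 : Real.sqrt S ≤ se * Y := by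
    have h9 : se ^ 2 * Y ≤ (se * Y) ^ 2 := by
      have : Y ≤ Y ^ 2 := by nlinarith
      nlinarith [mul_le_mul_of_nonneg_left this (sq_nonneg se)]
    rw [← Real.sqrt_sq (show 0 ≤ se * Y by positivity)]
    exact Real.sqrt_le_sqrt (h3.trans h9)
  have h9 : e * Real.sqrt S ≤ e * se * Y := by
    rw [mul_assoc]
    exact mul_le_mul_of_nonneg_left h8 he
  refine mul_le_mul_of_nonneg_left (div_le_div_of_nonneg_right ?_ hW.le) hC
  refine mul_le_mul ?_ h9 (by positivity) (by positivity)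
  exact mul_le_mul_of_nonneg_right (mul_le_mul_of_nonneg_right
    (pow_le_pow_left₀ hd hdd 3) hR) hN

omit [NumberField K] in
/-- the parts of an ideal which divides `s k` -/
private theorem parts {s k E : Ideal (𝓞 K)} (hsk : s ⊔ k = ⊤) (hE : s * k ≤ E) :
    E = (E ⊔ k) * (E ⊔ s) := by
  refine le_antisymm ?_ ?_
  · have h1 : E = E * (s ⊔ k) := by rw [hsk, Ideal.mul_top]
    have h2 : E * (s ⊔ k) ≤ (E ⊔ k) * (E ⊔ s) := by
      rw [Ideal.mul_sup]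
      refine sup_le ?_ ?_
      · exact Ideal.mul_mono le_sup_left le_sup_right
      · rw [mul_comm]
        exact Ideal.mul_mono le_sup_right le_sup_left
    exact h1.le.trans h2
  · rw [Ideal.sup_mul, Ideal.mul_sup, Ideal.mul_sup]
    refine sup_le (sup_le Ideal.mul_le_left Ideal.mul_le_left) (sup_le Ideal.mul_le_right ?_)
    rw [mul_comm]
    exact hE

end aux

theorem pf_DC (hPI : D_PI) (hSC : D_SC) (hSV : F_SV) (hTR : F_TR) (hCC : F_CC) (hID : F_ID)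
    (hGX : Pool.Agent.H31.SX.X_GX) (hRX : Pool.Agent.H28.RC.T_RX) : F_DC := by
  classical
  intro n hn
  obtain ⟨C, hC, hCC⟩ := hCC n hn
  refine ⟨C, hC, ?_⟩
  intro K _ _ hK l s k κ b κ₃ b₃ Y θ M x₀ ρ ι J η γ hSK hFP hCn hFN hρ
  have hl := hFP.lk.l_ne
  have hsk := hFP.lk.k_ne
  have hM := hFP.M_ne
  have hs0 : s ≠ ⊥ := fun h => hsk (by rw [h, Ideal.bot_mul])
  have hk : k ≠ ⊥ := fun h => hsk (by rw [h, Ideal.mul_bot])
  have hcop := hSK.cop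
  have hkr : k ≤ k.radical := Ideal.le_radical
  have hr0 : k.radical ≠ ⊥ := fun h => hk (le_bot_iff.1 (h ▸ hkr))
  have hskk : s * k ≤ k := Ideal.mul_le_right
  have hsks : s * k ≤ s := Ideal.mul_le_left
  have hY : 1 ≤ Y := hSK.one
  have hx₀ : Gn (s * k) M x₀ := (Pool.Agent.H29.THC.pf_CQ K (l * (s * k)) (fun _ => 0) M x₀
    (mul_ne_zero hl hsk) hM hFP.gen).2.2 (s * k) Ideal.mul_le_right
  -- the greatest common divisor
  have H1 : ∀ δ : K, ∃ E : Ideal (𝓞 K), s * k ≤ E ∧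
      (2 * δ ∈ ((l * κ : Ideal (𝓞 K)) : FI K) * M → Gcd (s * k) M (2 * δ) E ∧ E ≤ κ ∧
        2 * δ ∈ ((l * E : Ideal (𝓞 K)) : FI K) * M) := by
    intro δ
    by_cases h : 2 * δ ∈ ((l * κ : Ideal (𝓞 K)) : FI K) * M
    · obtain ⟨e, h1, h2, h3⟩ := hGX K (s * k) M (2 * δ) hsk hM (fi_le _ M h)
      obtain ⟨h4, h5⟩ := h2 l κ hFP.lk.cop hCn.kq.le h
      exact ⟨e, h1.le, fun _ => ⟨h1, h4, h5⟩⟩
    · exact ⟨s * k, le_rfl, fun h' => absurd h' h⟩
  choose EF hEF1 hEF2 using H1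
  -- the complementary parts
  have H2 : ∀ E : Ideal (𝓞 K), ∃ k' s' : Ideal (𝓞 K), k = (E ⊔ k) * k' ∧ s = (E ⊔ s) * s' := by
    intro E
    obtain ⟨k', h1⟩ := Ideal.dvd_iff_le.2 (show k ≤ E ⊔ k from le_sup_right)
    obtain ⟨s', h2⟩ := Ideal.dvd_iff_le.2 (show s ≤ E ⊔ s from le_sup_right)
    exact ⟨k', s', h1, h2⟩
  choose kF sF hkF hsF using H2
  have hk'0 : ∀ E, kF E ≠ ⊥ := fun E h => hk (by rw [hkF E, h, Ideal.mul_bot])
  have hs'0 : ∀ E, sF E ≠ ⊥ := fun E h => hs0 (by rw [hsF E, h, Ideal.mul_bot])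
  have he0 : ∀ E : Ideal (𝓞 K), E ⊔ k ≠ ⊥ := fun E h => hk (le_bot_iff.1 (h ▸ le_sup_right))
  have hse0 : ∀ E : Ideal (𝓞 K), E ⊔ s ≠ ⊥ := fun E h => hs0 (le_bot_iff.1 (h ▸ le_sup_right))
  have h2sk : Ideal.span {(2 : 𝓞 K)} ⊔ s * k = ⊤ := by
    rw [← top_le_iff, ← hFP.lk.big]
    refine sup_le_sup_right ?_ _
    rw [Ideal.span_singleton_le_iff_mem, show (210 : 𝓞 K) = 105 * 2 by norm_num]
    exact Ideal.mul_mem_left _ _ (Ideal.mem_span_singleton_self 2)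
  have hsub : ∀ E, s * k ≤ sF E * k := fun E => by
    nth_rewrite 1 [hsF E]
    rw [mul_assoc]
    exact Ideal.mul_le_right
  have H3 : ∀ E : Ideal (𝓞 K), ∃ (π : 𝓞 K) (y₂ : K), PY (sF E * k) (E ⊔ k) (sF E * kF E) π y₂ := by
    intro E
    refine hPI K (sF E * k) (E ⊔ k) (sF E * kF E) (mul_ne_zero (hs'0 E) hk) ?_
      (up h2sk le_rfl (hsub E))
    nth_rewrite 1 [hkF E]
    ring
  choose πF yF hPY using H3
  have H4 := fun E : Ideal (𝓞 K) => hSV K l s k (κ ⊔ k) (E ⊔ s) (sF E) Y θ M x₀ ρ ι J η γ hSK hFP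
    le_sup_right hFN hρ (hsF E)
  choose ηF ρF xF μF hFN' hFP' hμ hgf hid using H4
  have hsqf : ∀ E, (E ⊔ s) ⊔ sF E = ⊤ := fun E => by
    refine se_s' ?_ ?_
    · rw [← hsF E]; exact hs0
    · rw [← hsF E]; exact hSK.sqf
  have hgcd : ∀ (E : Ideal (𝓞 K)) (δ : K), s * k ≤ E → Gcd (s * k) M (2 * δ) E →
      Gcd (sF E * k) M (2 * δ) (E ⊔ k) := by
    intro E δ hE hG
    refine ⟨?_, fi_mono (le_sup_left) M hG.mem, fun e' he' hm => ?_⟩
    · exact Ideal.mul_le_right.trans le_sup_right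
    · have h1 : E ≤ e' := hG.min e' ((hsub E).trans he') hm
      refine sup_le h1 ?_
      -- `k ≤ E ⊔ s' k`
      have h2 : E ⊔ sF E = ⊤ := by
        have h3 : E ⊔ s ⊔ sF E = ⊤ := hsqf E
        have h4 : s ≤ sF E := by
          nth_rewrite 1 [hsF E]
          exact Ideal.mul_le_right
        rw [sup_assoc, sup_eq_right.2 h4] at h3
        exact h3
      calc k = k * (E ⊔ sF E) := by rw [h2, Ideal.mul_top]
        _ ≤ e' := by
          rw [Ideal.mul_sup]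
          refine sup_le (Ideal.mul_le_right.trans h1) ?_
          rw [mul_comm]
          exact he'
  have H5 : ∀ δ : K, ∃ σ σ' : 𝓞 K, 2 * δ ∈ ((l * κ : Ideal (𝓞 K)) : FI K) * M →
      σ * σ' - 1 ∈ sF (EF δ) * k ∧
      δ - ((σ * πF (EF δ) : 𝓞 K) : K) * x₀ ∈ ((sF (EF δ) * k : Ideal (𝓞 K)) : FI K) * M := by
    intro δ
    by_cases h : 2 * δ ∈ ((l * κ : Ideal (𝓞 K)) : FI K) * M
    · obtain ⟨h1, h2, h3⟩ := hEF2 δ h
      obtain ⟨σ, σ', h5, h6⟩ := hSC K l (sF (EF δ) * k) (EF δ ⊔ k) (sF (EF δ) * kF (EF δ)) M x₀ δ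
        (πF (EF δ)) (yF (EF δ)) (hFP' _) (hPY _)
        (fi_mono (Ideal.mul_mono_right le_sup_left) M h3) (hgcd _ δ (hEF1 δ) h1)
      exact ⟨σ, σ', fun _ => ⟨h5, h6⟩⟩
    · exact ⟨0, 0, fun h' => absurd h' h⟩
  choose σF σF' hσF using H5
  -- the classes
  have hfin : Finite (𝓞 K ⧸ k.radical) := Ideal.finiteQuotientOfFreeOfNeBot k.radical hr0
  have : Fintype (𝓞 K ⧸ k.radical) := Fintype.ofFinite _
  let P : Type := {e : Ideal (𝓞 K) // e ∈ dvs K (s * k)} × (𝓞 K ⧸ k.radical)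
  let cP : K → P := fun δ => (⟨EF δ, mem_dvs hsk (hEF1 δ)⟩, Ideal.Quotient.mk k.radical (σF' δ))
  let EQ : P ≃ Fin (Fintype.card P) := Fintype.equivFin P
  have hcard : (Fintype.card P : ℝ) = (dvs K (s * k)).card * Nf K k.radical := by
    have h1 : Fintype.card P = (dvs K (s * k)).card * Fintype.card (𝓞 K ⧸ k.radical) := by
      rw [Fintype.card_prod, Fintype.card_coe]
    have h2 : Fintype.card (𝓞 K ⧸ k.radical) = Ideal.absNorm k.radical := by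
      rw [Ideal.absNorm_apply, Submodule.cardQuot_apply, Nat.card_eq_fintype_card]
    rw [h1, h2]
    unfold Nf
    push_cast
    ring
  refine ⟨Fintype.card P, fun δ => (EQ (cP δ) : ℕ), hcard.le, fun δ => (EQ (cP δ)).2, ?_⟩
  intro t ht
  have hfr : 1 ≤ Nf K k.radical := one_le_Nf hr0
  by_cases hne : ∃ δ₁ : K, δ₁ ≠ 0 ∧ 2 * δ₁ ∈ ((l * κ : Ideal (𝓞 K)) : FI K) * M ∧
      ((EQ (cP δ₁) : ℕ)) = t
  · obtain ⟨δ₁, hδ₁0, hδ₁, hδ₁t⟩ := hne
    obtain ⟨X₀, -, hX₀⟩ := hx₀.gen ρ hρ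
    -- the other half differences of the class
    have hcls : ∀ δ : K, ((EQ (cP δ) : ℕ)) = t →
        EF δ = EF δ₁ ∧ σF' δ₁ * X₀ - σF' δ * X₀ ∈ k.radical := by
      intro δ hδt
      have h1 : cP δ = cP δ₁ := EQ.injective (Fin.ext (hδt.trans hδ₁t.symm))
      have h2 := congrArg Prod.fst h1
      have h3 := congrArg Prod.snd h1
      have h4 : EF δ = EF δ₁ := congrArg Subtype.val h2
      have h5 : Ideal.Quotient.mk k.radical (σF' δ₁) = Ideal.Quotient.mk k.radical (σF' δ) :=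
        h3.symm
      rw [Ideal.Quotient.mk_eq_mk_iff_sub_mem] at h5
      refine ⟨h4, ?_⟩
      rw [← sub_mul]
      exact Ideal.mul_mem_right _ _ h5
    obtain ⟨E, hEdef⟩ : ∃ E, E = EF δ₁ := ⟨_, rfl⟩
    rw [← hEdef] at hcls
    have hEκ : E ≤ κ := by rw [hEdef]; exact (hEF2 δ₁ hδ₁).2.1
    have hskE : s * k ≤ E := by rw [hEdef]; exact hEF1 δ₁
    have hee : E ⊔ k ≤ κ ⊔ k := sup_le_sup_right hEκ k
    have hsee : E ⊔ s ≤ κ ⊔ s := sup_le_sup_right hEκ s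
    have hEe : E = (E ⊔ k) * (E ⊔ s) := parts hcop hskE
    obtain ⟨-, -, -, -, hcop2, hs'rad, -, -, -, hNs'k', -, hNs3, -, -, -, hNk', ⟨s'', hs'', hb₃s⟩,
      -⟩ := hID K l s k κ b κ₃ b₃ (E ⊔ k) (kF E) (E ⊔ s) (sF E) Y hSK hCn (hkF E) (hsF E) hee hsee
    have hσE : ∀ δ : K, 2 * δ ∈ ((l * κ : Ideal (𝓞 K)) : FI K) * M → ((EQ (cP δ) : ℕ)) = t →
        σF δ * σF' δ - 1 ∈ (sF E) * k ∧
        δ - ((σF δ * (πF E) : 𝓞 K) : K) * x₀ ∈ (((sF E) * k : Ideal (𝓞 K)) : FI K) * M ∧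
        2 * δ ∈ ((l * E : Ideal (𝓞 K)) : FI K) * M := by
      intro δ hδ hδt
      have h1 := hσF δ hδ
      have h2 := (hEF2 δ hδ).2.2
      rw [(hcls δ hδt).1] at h1 h2
      exact ⟨h1.1, h1.2, h2⟩
    have her : (E ⊔ k) ≤ k.radical := hee.trans (sup_le hCn.kq.rad hkr)
    have hsks' : s ≤ (sF E) := by
      nth_rewrite 1 [hsF E]
      exact Ideal.mul_le_right
    have hs'k : (sF E) ⊔ k = ⊤ := up hcop hsks' le_rfl
    have hlse : l ⊔ (E ⊔ s) = ⊤ := up hFP.lk.cop le_rfl (hskE.trans le_sup_left)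
    have hs'k0 : (sF E) * k ≠ ⊥ := mul_ne_zero (hs'0 E) hk
    have hH0 : (k.radical ⊓ (kF E)) * (sF E) ≠ ⊥ := by
      refine mul_ne_zero ?_ (hs'0 E)
      intro h
      have h1 : k ≤ k.radical ⊓ (kF E) := by
        refine le_inf hkr ?_
        nth_rewrite 1 [hkF E]
        exact Ideal.mul_le_right
      rw [show (0 : Ideal (𝓞 K)) = ⊥ from rfl] at h
      rw [h] at h1
      exact hk (le_bot_iff.1 h1)
    -- the facts on a divisor
    have hdiv : ∀ g f : Ideal (𝓞 K), (E ⊔ s) = g * f → g ≠ ⊥ ∧ f ≠ ⊥ ∧ g ⊔ (sF E) * k = ⊤ ∧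
        f ⊔ (sF E) * k = ⊤ ∧ f ⊔ l * ((sF E) * k) = ⊤ ∧ Gn ((sF E) * k) (Mz K ((E ⊔ k) * f)) (yF E) := by
      intro g f hgf'
      have hg0 : g ≠ ⊥ := fun h => hse0 E (by rw [hgf', h, Ideal.bot_mul])
      have hf0 : f ≠ ⊥ := fun h => hse0 E (by rw [hgf', h, Ideal.mul_bot])
      have hg : (E ⊔ s) ≤ g := by rw [hgf']; exact Ideal.mul_le_left
      have hf : (E ⊔ s) ≤ f := by rw [hgf']; exact Ideal.mul_le_right
      have hf2 : f ⊔ (sF E) * k = ⊤ := up hcop2 hf le_rfl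
      refine ⟨hg0, hf0, up hcop2 hg le_rfl, hf2, ?_, ?_⟩
      · have e1 : l ⊔ f = ⊤ := up hlse le_rfl hf
        rw [sup_comm]
        exact (Ideal.mul_sup_eq_of_coprime_left e1).trans (by rw [sup_comm]; exact hf2)
      · refine gn_up hf0 hf2 ?_
        rw [← Mz_fac hf0]
        exact (hPY E).gen
    have H6 : ∀ f : Ideal (𝓞 K), ∃ X₂ : Finset K, f ≠ ⊥ →
        Rep K ((k.radical ⊓ (kF E)) * (sF E)) (Mz K ((E ⊔ k) * f)) X₂ := by
      intro f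
      by_cases hf : f = ⊥
      · exact ⟨∅, fun h => absurd hf h⟩
      · obtain ⟨X₂, hX₂, -⟩ := hRX K ((k.radical ⊓ (kF E)) * (sF E)) (Mz K ((E ⊔ k) * f)) hH0
          (Pool.Agent.H19.DM.PI.Mz_ne (mul_ne_zero (he0 E) hf))
        exact ⟨X₂, fun _ => hX₂⟩
    choose XF hXF using H6
    have H7 : ∀ g : Ideal (𝓞 K), ∃ f : Ideal (𝓞 K), ∀ f' : Ideal (𝓞 K), (E ⊔ s) = g * f' → f = f' := by
      intro g
      by_cases h : ∃ f', (E ⊔ s) = g * f'
      · obtain ⟨f, hf⟩ := h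
        refine ⟨f, fun f' hf' => ?_⟩
        have hg0 := (hdiv g f hf).1
        exact mul_left_cancel₀ (show g ≠ 0 from hg0) (hf.symm.trans hf')
      · exact ⟨⊥, fun f' hf' => absurd ⟨f', hf'⟩ h⟩
    choose fF hfF using H7
    have hT : ∀ g f : Ideal (𝓞 K), (E ⊔ s) = g * f → ∀ δ : K,
        2 * δ ∈ ((l * κ : Ideal (𝓞 K)) : FI K) * M → ((EQ (cP δ) : ℕ)) = t →
        2 * δ ∈ ((l * ((E ⊔ k) * f) : Ideal (𝓞 K)) : FI K) * ((g : FI K) * M) ∧ _ := fun g f hgf' δ hδ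
        hδt => by
      obtain ⟨hg0, hf0, hg1, hf1, hf2, hG⟩ := hdiv g f hgf'
      obtain ⟨h1, h2, h3⟩ := hσE δ hδ hδt
      obtain ⟨h4, h5, h6, h7⟩ := hgf E g f hgf'
      have hcg : 2 * δ ∈ ((l * ((E ⊔ k) * f) : Ideal (𝓞 K)) : FI K) * ((g : FI K) * M) := by
        rw [← mul_assoc, ← FractionalIdeal.coeIdeal_mul]
        have e1 : l * ((E ⊔ k) * f) * g = l * E := by
          calc l * ((E ⊔ k) * f) * g = l * ((E ⊔ k) * (g * f)) := by ring
            _ = l * E := by rw [← hgf', ← hEe]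
        rw [e1]
        exact h3
      have hlmono : ∀ z : K, z ∈ ((l * ((sF E) * k) : Ideal (𝓞 K)) : FI K) * M →
          z ∈ (((sF E) * k : Ideal (𝓞 K)) : FI K) * M := fun z hz =>
        fi_mono Ideal.mul_le_right M hz
      have hxg : (xF E) g ∈ (g : FI K) * M := h4.gen.mem
      have hρX : ρ - (X₀ : K) * x₀ ∈ (((sF E) * k : Ideal (𝓞 K)) : FI K) * M :=
        fi_mono (hsub E) M hX₀
      have hδE : δ ∈ (g : FI K) * M := by
        refine fi_mono ?_ M (half hFP.ev h3)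
        calc E = (E ⊔ k) * (E ⊔ s) := hEe
          _ ≤ (E ⊔ s) := Ideal.mul_le_right
          _ ≤ g := by rw [hgf']; exact Ideal.mul_le_left
      have k1 : (ρF E) g - (X₀ : K) * (xF E) g ∈ (((sF E) * k : Ideal (𝓞 K)) : FI K) * ((g : FI K) * M) := by
        refine cop_mem hg1 ?_ (sb h5 (sm1 X₀ hxg))
        have e1 : (ρF E) g - (X₀ : K) * (xF E) g = ((ρF E) g - ρ) + (ρ - (X₀ : K) * x₀) -
            (X₀ : K) * ((xF E) g - x₀) := by ring
        rw [e1]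
        exact sb (ad (hlmono _ h6) hρX) (sm1 X₀ (hlmono _ h7))
      have k2 : δ - ((σF δ * (πF E) : 𝓞 K) : K) * (xF E) g ∈
          (((sF E) * k : Ideal (𝓞 K)) : FI K) * ((g : FI K) * M) := by
        refine cop_mem hg1 ?_ (sb hδE (sm1 _ hxg))
        have e1 : δ - ((σF δ * (πF E) : 𝓞 K) : K) * (xF E) g =
            (δ - ((σF δ * (πF E) : 𝓞 K) : K) * x₀) - ((σF δ * (πF E) : 𝓞 K) : K) * ((xF E) g - x₀) := by
          ring
        rw [e1]
        exact sb h2 (sm1 _ (hlmono _ h7))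
      exact ⟨hcg, hTR K l (sF E) k (E ⊔ k) (kF E) f ((g : FI K) * M) ((xF E) g) ((ρF E) g) δ (πF E) (σF δ)
        (σF' δ) X₀ (σF' δ₁ * X₀) (yF E) h4 hs'k (hkF E) (hPY E) hG hf0 hf2 her h5 k1 hcg h1 k2
        (hcls δ hδt).2⟩
    have hNk'0 : 1 ≤ Nf K ((sF E) * (kF E)) := one_le_Nf (mul_ne_zero (hs'0 E) (hk'0 E))
    have hsq : ((Real.sqrt (Nf K ((sF E) * (kF E))) : ℝ) : ℂ) ≠ 0 := by
      rw [Ne, Complex.ofReal_eq_zero, Real.sqrt_eq_zero']
      linarith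
    refine ⟨(E ⊔ k), (kF E), (E ⊔ s), (sF E), (ρF E), (μF E), fun g j => cq ((sF E) * k) ((ηF E) j) ((g : FI K) * M)
      ((xF E) g), fun g i ν => ft K (XF (fF g)) (PhZ ((sF E) * k) k.radical ((E ⊔ k) * fF g) (πF E)
        (σF' δ₁ * X₀) (yF E) ((ηF E) i)) ν / ((Real.sqrt (Nf K ((sF E) * (kF E))) : ℝ) : ℂ), hkF E, hsF E,
      hee, hsee, ?_, ?_⟩
    · intro g f hgf'
      have hff : fF g = f := hfF g f hgf'
      obtain ⟨hg0, hf0, hg1, hf1, hf2, hG⟩ := hdiv g f hgf'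
      obtain ⟨h4, h5, h6, h7⟩ := hgf E g f hgf'
      simp only [hff]
      refine ⟨h5, hμ E g, ⟨?_, ?_, ?_, ?_⟩, ?_⟩
      · rintro δ ⟨hδ0, hδ, hδt⟩
        exact ⟨hδ0, (hT g f hgf' δ hδ hδt).1⟩
      · intro i hi x _
        exact Pool.Agent.H16.SWX.norm_cq ((hFN' E).lc i hi).mc x
      · rintro δ ⟨hδ0, hδ, hδt⟩ i hi x hx s hs
        exact (hT g f hgf' δ hδ hδt).2.1 ((ηF E) i) ((hFN' E).lc i hi).mc x hx s hs
      · rintro δ ⟨hδ0, hδ, hδt⟩
        obtain ⟨-, -, -, φ, hφ, h3⟩ := hT g f hgf' δ hδ hδt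
        refine ⟨φ, hφ, ?_⟩
        intro i hi X hX ξ hξ
        rw [h3 ((ηF E) i) ((hFN' E).lc i hi).mc X (XF f) hX (hXF f hf0) ξ hξ]
        field_simp
      · intro I hI hblk
        have hFNI : FN (sF E) k (κ ⊔ k) θ I (ηF E) γ := ⟨(hFN' E).nd, fun j hj => (hFN' E).lc j (hI hj),
          fun j hj => (hFN' E).fq j (hI hj), fun i hi j hj => (hFN' E).eq i (hI hi) j (hI hj)⟩
        have h1 := hCC K hK (sF E) ((sF E) ⊔ κ₃) s'' k (κ ⊔ k) (E ⊔ k) (kF E) f θ ι I (ηF E) γ (πF E)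
          (σF' δ₁ * X₀) (yF E) (XF f) (hs'0 E) hk hf0 hs'rad hs'k
          (up hFP.lk.big le_rfl (hsub E)) hs'' le_sup_right (sup_le hCn.kq.rad hkr) hCn.kq.six hFNI
          (hkF E) hee (hPY E) hG hf1 (hXF f hf0)
          (fun i hi j hj => ⟨hb₃s (hblk i hi j hj), hNk' _ (hblk i hi j hj)⟩)
          (hT g f hgf' δ₁ hδ₁ hδ₁t).2.2.1
        have hdle : ((dvs K (sF E)).card : ℝ) ≤ (dvs K s).card := by
          exact_mod_cast card_dvs_le hs0 hsks'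
        have hNe : 1 ≤ Nf K (E ⊔ k) := one_le_Nf (he0 E)
        have hNse : 1 ≤ Nf K (E ⊔ s) := one_le_Nf (hse0 E)
        have hNef : 0 ≤ Nf K ((E ⊔ k) * f) := by
          have := one_le_Nf (mul_ne_zero (he0 E) hf0)
          linarith
        have h0r : 0 ≤ Nf K k.radical := by linarith
        refine CO_mono h1 ?_ ?_
        · exact mul_le_mul_of_nonneg_left (pow_le_pow_left₀ (Nat.cast_nonneg _) hdle 2) h0r
        · exact xle (by linarith) (Nat.cast_nonneg _) hdle h0r hNef (by linarith) (by linarith)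
            (by linarith) hY hNs3
    · intro δ hδ0 hδ hδt
      have h1 : 2 * δ ∈ ((l * (E ⊔ s) : Ideal (𝓞 K)) : FI K) * M :=
        fi_mono (Ideal.mul_mono_right le_sup_left) M (hσE δ hδ hδt).2.2
      exact ⟨h1, fun u hu j hj => hid E δ h1 u hu j hj⟩
  · -- no half difference has this class
    have hA : ∀ δ : K, ¬ (δ ≠ 0 ∧ 2 * δ ∈ ((l * κ : Ideal (𝓞 K)) : FI K) * M ∧
        ((EQ (cP δ) : ℕ)) = t) := fun δ h => hne ⟨δ, h⟩
    refine ⟨k, ⊤, s, ⊤, fun _ => 0, fun _ => 0, fun _ _ _ => 0, fun _ _ _ => 0,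
      (Ideal.mul_top k).symm, (Ideal.mul_top s).symm, le_sup_right, le_sup_right, ?_, ?_⟩
    · intro g f hgf'
      refine ⟨(((g : FI K) * M : FI K) : Submodule (𝓞 K) K).zero_mem, by simp, ⟨?_, ?_, ?_, ?_⟩, ?_⟩
      · intro δ hδ
        exact absurd hδ (hA δ)
      · intro i _ x _
        simp
      · intro δ hδ
        exact absurd hδ (hA δ)
      · intro δ hδ
        exact absurd hδ (hA δ)
      · intro I _ _
        refine CO_zero (ww_nonneg γ) ?_ ?_ ?_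
        · positivity
        · have : 0 ≤ Nf K (⊤ * ⊤ : Ideal (𝓞 K)) := by unfold Nf; positivity
          positivity
        · have h1 : 0 ≤ Nf K (⊤ * ⊤ : Ideal (𝓞 K)) := by unfold Nf; positivity
          have h2 : 0 ≤ Nf K (k * f) := by unfold Nf; positivity
          have h3 : 0 ≤ Nf K k := by unfold Nf; positivity
          have h4 : 0 ≤ Nf K s := by unfold Nf; positivity
          positivity
    · intro δ h1 h2 h3
      exact absurd ⟨h1, h2, h3⟩ (hA δ)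

end Pool.Agent.H68.DF.DC
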