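import Pool.Agent.H23.DF.TargetsG
import Pool.Agent.H23.DF.TargetsL

/-!
# Friable conductors: row OC (the sums over the differences of a given class)
-/

set_option autoImplicit false

open NumberField NumberField.InfinitePlace

namespace Pool.Agent.H68.DF.OC

open Pool.Agent.H27.TM Pool.Agent.H23.DM Pool.Agent.H23.DF Pool.Agent.H23.LB
open Pool.Agent.H29.TC (dvs)
open Pool.Agent.H31.SW (PP DD dK)

private theorem sqrt_le_self' {x : ℝ} (hx : 1 ≤ x) : Real.sqrt x ≤ x := by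
  rw [Real.sqrt_le_left (by linarith)]
  nlinarith

/-- first term -/
theorem t1 (g f e q h κ R d D P G c T : ℝ) (hg : 1 ≤ g) (hf : 1 ≤ f) (he : 1 ≤ e) (hq : 1 ≤ q)
    (hh : 0 < h) (hκ : 0 < κ) (hκe : κ ≤ e * (g * f)) (hR : 1 ≤ R) (hd : 1 ≤ d) (hD : 1 ≤ D)
    (hP : 1 ≤ P) (hG : 0 < G) (hc : 1 ≤ c) (hT : T = (g * f) * e * q * P) :
    Real.sqrt q / h * (h / (e * f) *
      (((c * (D * (d * R * (e * (g * f) / κ)))) * P) ^ (1 / 2 : ℝ) * G ^ (-(3 / 2) : ℝ))) ≤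
      g * (c * D * d * R) * (T ^ (1 / 2 : ℝ) * (κ * G) ^ (-(3 / 2) : ℝ)) := by
  have hT0 : 0 < T := by rw [hT]; positivity
  have e1 : Real.sqrt q * ((c * (D * (d * R * (e * (g * f) / κ)))) * P) ^ (1 / 2 : ℝ) =
      Real.sqrt (c * D * d * R) * (T ^ (1 / 2 : ℝ) * κ ^ (-(1 / 2) : ℝ)) := by
    rw [← Real.sqrt_eq_rpow, ← Real.sqrt_eq_rpow, ← Real.sqrt_mul (by linarith),
      Real.rpow_neg hκ.le, ← Real.sqrt_eq_rpow, ← Real.sqrt_inv, ← Real.sqrt_mul hT0.le,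
      ← Real.sqrt_mul (by positivity)]
    congr 1
    rw [hT]
    field_simp
  have e2 : (κ * G) ^ (-(3 / 2) : ℝ) = κ ^ (-(1 / 2) : ℝ) * κ⁻¹ * G ^ (-(3 / 2) : ℝ) := by
    rw [Real.mul_rpow hκ.le hG.le, show (-(3 / 2) : ℝ) = -(1 / 2) + (-1) by norm_num,
      Real.rpow_add hκ, Real.rpow_neg_one]
  have e3 : Real.sqrt (c * D * d * R) ≤ c * D * d * R := by
    apply sqrt_le_self'
    have h1 : 1 ≤ c * D := one_le_mul_of_one_le_of_one_le hc hD
    have h2 : 1 ≤ c * D * d := one_le_mul_of_one_le_of_one_le h1 hd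
    exact one_le_mul_of_one_le_of_one_le h2 hR
  have e4 : 1 / (e * f) ≤ g * κ⁻¹ := by
    rw [div_le_iff₀ (by positivity), ← div_eq_mul_inv, div_mul_eq_mul_div, le_div_iff₀ hκ]
    linarith
  have hpos : 0 ≤ T ^ (1 / 2 : ℝ) * κ ^ (-(1 / 2) : ℝ) * G ^ (-(3 / 2) : ℝ) := by positivity
  calc Real.sqrt q / h * (h / (e * f) *
      (((c * (D * (d * R * (e * (g * f) / κ)))) * P) ^ (1 / 2 : ℝ) * G ^ (-(3 / 2) : ℝ)))
      = (Real.sqrt q * ((c * (D * (d * R * (e * (g * f) / κ)))) * P) ^ (1 / 2 : ℝ)) *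
        (1 / (e * f)) * G ^ (-(3 / 2) : ℝ) := by
        field_simp
    _ = Real.sqrt (c * D * d * R) * (1 / (e * f)) *
        (T ^ (1 / 2 : ℝ) * κ ^ (-(1 / 2) : ℝ) * G ^ (-(3 / 2) : ℝ)) := by
        rw [e1]; ring
    _ ≤ (c * D * d * R) * (g * κ⁻¹) *
        (T ^ (1 / 2 : ℝ) * κ ^ (-(1 / 2) : ℝ) * G ^ (-(3 / 2) : ℝ)) := by
        refine mul_le_mul_of_nonneg_right ?_ hpos
        exact mul_le_mul e3 e4 (by positivity) (by positivity)
    _ = g * (c * D * d * R) * (T ^ (1 / 2 : ℝ) * (κ * G) ^ (-(3 / 2) : ℝ)) := by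
        rw [e2]; ring

/-- second term -/
theorem t2 (g f e q h R d Y c : ℝ) (hg : 1 ≤ g) (hf : 1 ≤ f) (he : 1 ≤ e) (hq : 1 ≤ q)
    (hh : 0 < h) (hR : 1 ≤ R) (hd : 1 ≤ d) (hY : 1 ≤ Y) (hc : 1 ≤ c) :
    Real.sqrt q / h * (h / (e * f) *
      (c * (d ^ 3 * R * (e * f) * (e * (g * f) * Y) / q)) ^ (1 / 2 : ℝ)) ≤
      g * (c * d ^ 3 * R * Y) := by
  have e1 : Real.sqrt q * (c * (d ^ 3 * R * (e * f) * (e * (g * f) * Y) / q)) ^ (1 / 2 : ℝ) =
      Real.sqrt (g * (c * d ^ 3 * R * Y)) * (e * f) := by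
    rw [← Real.sqrt_eq_rpow, ← Real.sqrt_mul (by linarith)]
    rw [← Real.sqrt_sq (show 0 ≤ e * f by positivity), ← Real.sqrt_mul (by positivity),
      Real.sqrt_sq (show 0 ≤ e * f by positivity)]
    congr 1
    field_simp
  have e3 : Real.sqrt (g * (c * d ^ 3 * R * Y)) ≤ g * (c * d ^ 3 * R * Y) := by
    apply sqrt_le_self'
    have h0 : 1 ≤ d ^ 3 := one_le_pow₀ hd
    have h1 : 1 ≤ c * d ^ 3 := one_le_mul_of_one_le_of_one_le hc h0
    have h2 : 1 ≤ c * d ^ 3 * R := one_le_mul_of_one_le_of_one_le h1 hR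
    have h3 : 1 ≤ c * d ^ 3 * R * Y := one_le_mul_of_one_le_of_one_le h2 hY
    exact one_le_mul_of_one_le_of_one_le hg h3
  calc Real.sqrt q / h * (h / (e * f) *
      (c * (d ^ 3 * R * (e * f) * (e * (g * f) * Y) / q)) ^ (1 / 2 : ℝ))
      = (Real.sqrt q * (c * (d ^ 3 * R * (e * f) * (e * (g * f) * Y) / q)) ^ (1 / 2 : ℝ)) *
        (1 / (e * f)) := by field_simp
    _ = Real.sqrt (g * (c * d ^ 3 * R * Y)) := by
        rw [e1]; field_simp
    _ ≤ g * (c * d ^ 3 * R * Y) := e3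

/-- third term -/
theorem t3 (g f e q h R P A T : ℝ) (hg : 1 ≤ g) (hf : 1 ≤ f) (he : 1 ≤ e) (hq : 1 ≤ q)
    (hh : q ≤ h) (hR : 1 ≤ R) (hP : 1 ≤ P) (hA : 0 ≤ A) (hT : T = (g * f) * e * q * P) :
    Real.sqrt q / h * (A * ((R ^ 2 / q) ^ (1 / 2 : ℝ) / (e * f * P) + 1 / T ^ 2)) ≤
      2 * R * (A * g / T) := by
  have hT0 : 1 ≤ T := by
    rw [hT]
    have h1 : 1 ≤ g * f := one_le_mul_of_one_le_of_one_le hg hf
    have h2 : 1 ≤ g * f * e := one_le_mul_of_one_le_of_one_le h1 he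
    have h3 : 1 ≤ g * f * e * q := one_le_mul_of_one_le_of_one_le h2 hq
    exact one_le_mul_of_one_le_of_one_le h3 hP
  have hh0 : 0 < h := by linarith
  have hq0 : 0 < q := by linarith
  have e1 : Real.sqrt q * (R ^ 2 / q) ^ (1 / 2 : ℝ) = R := by
    rw [← Real.sqrt_eq_rpow, ← Real.sqrt_mul (by linarith), mul_div_cancel₀ _ hq0.ne',
      Real.sqrt_sq (by linarith)]
  have e2 : 1 / (h * (e * f * P)) ≤ g / T := by
    rw [div_le_div_iff₀ (by positivity) (by linarith), hT]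
    have h1 : 0 ≤ g * f * e * P := by positivity
    nlinarith [mul_le_mul_of_nonneg_left hh h1]
  have e3 : Real.sqrt q / h * (1 / T ^ 2) ≤ g / T := by
    have h1 : Real.sqrt q / h ≤ 1 := by
      rw [div_le_one hh0]
      exact (sqrt_le_self' hq).trans hh
    have h2 : 1 / T ^ 2 ≤ g / T := by
      rw [div_le_div_iff₀ (by positivity) (by linarith)]
      nlinarith [mul_le_mul_of_nonneg_right hg (show 0 ≤ T ^ 2 by positivity)]
    calc Real.sqrt q / h * (1 / T ^ 2) ≤ 1 * (1 / T ^ 2) :=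
          mul_le_mul_of_nonneg_right h1 (by positivity)
      _ ≤ g / T := by rw [one_mul]; exact h2
  have hgT : 0 ≤ g / T := by positivity
  calc Real.sqrt q / h * (A * ((R ^ 2 / q) ^ (1 / 2 : ℝ) / (e * f * P) + 1 / T ^ 2))
      = A * ((Real.sqrt q * (R ^ 2 / q) ^ (1 / 2 : ℝ)) * (1 / (h * (e * f * P))) +
        Real.sqrt q / h * (1 / T ^ 2)) := by field_simp
    _ = A * (R * (1 / (h * (e * f * P))) + Real.sqrt q / h * (1 / T ^ 2)) := by rw [e1]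
    _ ≤ A * (R * (g / T) + g / T) := by
        refine mul_le_mul_of_nonneg_left ?_ hA
        exact add_le_add (mul_le_mul_of_nonneg_left e2 (by linarith)) e3
    _ ≤ A * (2 * R * (g / T)) := by
        refine mul_le_mul_of_nonneg_left ?_ hA
        nlinarith [mul_le_mul_of_nonneg_right hR hgT]
    _ = 2 * R * (A * g / T) := by ring

/-- the three terms together -/
theorem tot (g f e q h κ R d D P G c c₂ Cd T Y A I δ dk ε₁ ε : ℝ) (hg : 1 ≤ g) (hf : 1 ≤ f)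
    (he : 1 ≤ e) (hq : 1 ≤ q) (hh : q ≤ h) (hκ : 0 < κ) (hκe : κ ≤ e * (g * f)) (hR : 1 ≤ R)
    (hd : 1 ≤ d) (hD : 1 ≤ D) (hP : 1 ≤ P) (hG : 0 < G) (hc : 1 ≤ c) (hc₂ : 1 ≤ c₂) (hY : 1 ≤ Y)
    (hA : 0 ≤ A) (hI : 0 ≤ I) (hT : T = (g * f) * e * q * P) (hδ : 0 ≤ δ) (hdk : 0 ≤ dk)
    (hCd : 1 ≤ Cd) (hdd : d ^ 5 ≤ Cd * T ^ ε₁) (hε : ε = ε₁ + ε₁) :
    A * (Real.sqrt q / h * (δ * ((R * d ^ 2) * dk * T ^ ε₁ * (
      I ^ (1 / 2 : ℝ) * (h / (e * f) *
        (((c * (D * (d * R * (e * (g * f) / κ)))) * P) ^ (1 / 2 : ℝ) * G ^ (-(3 / 2) : ℝ))) +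
      I * (h / (e * f) * (c₂ * (d ^ 3 * R * (e * f) * (e * (g * f) * Y) / q)) ^ (1 / 2 : ℝ)) +
      I * (A * ((R ^ 2 / q) ^ (1 / 2 : ℝ) / (e * f * P) + 1 / T ^ 2)))))) ≤
      (δ * (2 * c * c₂ * Cd)) * (A * g * (D * dk * (R * Y) ^ 3 * T ^ ε * (
        I ^ (1 / 2 : ℝ) * (T ^ (1 / 2 : ℝ) * (κ * G) ^ (-(3 / 2) : ℝ)) +
          I * (1 + A * g / T)))) := by
  have hT0 : 1 ≤ T := by
    rw [hT]
    have h1 : 1 ≤ g * f := one_le_mul_of_one_le_of_one_le hg hf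
    have h2 : 1 ≤ g * f * e := one_le_mul_of_one_le_of_one_le h1 he
    have h3 : 1 ≤ g * f * e * q := one_le_mul_of_one_le_of_one_le h2 hq
    exact one_le_mul_of_one_le_of_one_le h3 hP
  have hh0 : 0 < h := by linarith
  have u1 := t1 g f e q h κ R d D P G c T hg hf he hq hh0 hκ hκe hR hd hD hP hG hc hT
  have u2 := t2 g f e q h R d Y c₂ hg hf he hq hh0 hR hd hY hc₂
  have u3 := t3 g f e q h R P A T hg hf he hq hh hR hP hA hT
  set a₁ := h / (e * f) *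
        (((c * (D * (d * R * (e * (g * f) / κ)))) * P) ^ (1 / 2 : ℝ) * G ^ (-(3 / 2) : ℝ)) with ha₁
  set a₂ := h / (e * f) * (c₂ * (d ^ 3 * R * (e * f) * (e * (g * f) * Y) / q)) ^ (1 / 2 : ℝ)
    with ha₂
  set a₃ := A * ((R ^ 2 / q) ^ (1 / 2 : ℝ) / (e * f * P) + 1 / T ^ 2) with ha₃
  set b₁ := T ^ (1 / 2 : ℝ) * (κ * G) ^ (-(3 / 2) : ℝ) with hb₁
  have hb₁0 : 0 ≤ b₁ := by rw [hb₁]; positivity
  have hs : 0 ≤ Real.sqrt q / h := by positivity
  have hTe : 0 ≤ T ^ ε₁ := by positivity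
  have hdc : 1 ≤ d ^ 3 := one_le_pow₀ hd
  have hRY : 1 ≤ R * Y := one_le_mul_of_one_le_of_one_le hR hY
  -- each coefficient is at most `c c₂ D d ^ 3 R Y`
  have w1 : c * D * d * R ≤ 2 * c * c₂ * D * d ^ 3 * (R * Y) := by
    have h1 : d ≤ d ^ 3 := by nlinarith [mul_self_nonneg (d - 1), mul_self_nonneg d]
    have h2 : c * D * d * R ≤ c * D * d ^ 3 * R := by
      have : 0 ≤ c * D := by positivity
      nlinarith [mul_le_mul_of_nonneg_left h1 this]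
    have h3 : c * D * d ^ 3 * R ≤ (c * D * d ^ 3 * R) * (2 * c₂ * Y) := by
      apply le_mul_of_one_le_right (by positivity)
      nlinarith [one_le_mul_of_one_le_of_one_le hc₂ hY]
    calc c * D * d * R ≤ c * D * d ^ 3 * R := h2
      _ ≤ (c * D * d ^ 3 * R) * (2 * c₂ * Y) := h3
      _ = 2 * c * c₂ * D * d ^ 3 * (R * Y) := by ring
  have w2 : c₂ * d ^ 3 * R * Y ≤ 2 * c * c₂ * D * d ^ 3 * (R * Y) := by
    have h3 : c₂ * d ^ 3 * R * Y ≤ (c₂ * d ^ 3 * R * Y) * (2 * c * D) := by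
      apply le_mul_of_one_le_right (by positivity)
      nlinarith [one_le_mul_of_one_le_of_one_le hc hD]
    calc c₂ * d ^ 3 * R * Y ≤ (c₂ * d ^ 3 * R * Y) * (2 * c * D) := h3
      _ = 2 * c * c₂ * D * d ^ 3 * (R * Y) := by ring
  have w3 : 2 * R * (A * g / T) ≤ g * (2 * c * c₂ * D * d ^ 3 * (R * Y)) * (A * g / T) := by
    refine mul_le_mul_of_nonneg_right ?_ (by positivity)
    have h1 : 1 ≤ c * c₂ := one_le_mul_of_one_le_of_one_le hc hc₂
    have h2 : 1 ≤ c * c₂ * D := one_le_mul_of_one_le_of_one_le h1 hD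
    have h3 : 1 ≤ c * c₂ * D * d ^ 3 := one_le_mul_of_one_le_of_one_le h2 hdc
    have h4 : 1 ≤ c * c₂ * D * d ^ 3 * Y := one_le_mul_of_one_le_of_one_le h3 hY
    have h5 : 1 ≤ g * (c * c₂ * D * d ^ 3 * Y) := one_le_mul_of_one_le_of_one_le hg h4
    calc 2 * R ≤ 2 * R * (g * (c * c₂ * D * d ^ 3 * Y)) :=
          le_mul_of_one_le_right (by positivity) h5
      _ = g * (2 * c * c₂ * D * d ^ 3 * (R * Y)) := by ring
  set m := 2 * c * c₂ * D * d ^ 3 * (R * Y) with hm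
  have hm0 : 0 ≤ m := by rw [hm]; positivity
  have v1 : Real.sqrt q / h * a₁ ≤ g * m * b₁ :=
    u1.trans (mul_le_mul_of_nonneg_right (mul_le_mul_of_nonneg_left w1 (by linarith)) hb₁0)
  have v2 : Real.sqrt q / h * a₂ ≤ g * m :=
    u2.trans (mul_le_mul_of_nonneg_left w2 (by linarith))
  have v3 : Real.sqrt q / h * a₃ ≤ g * m * (A * g / T) := u3.trans w3
  have hI2 : 0 ≤ I ^ (1 / 2 : ℝ) := by positivity
  have hsum : Real.sqrt q / h * (I ^ (1 / 2 : ℝ) * a₁ + I * a₂ + I * a₃) ≤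
      g * m * (I ^ (1 / 2 : ℝ) * b₁ + I * (1 + A * g / T)) := by
    have x1 := mul_le_mul_of_nonneg_left v1 hI2
    have x2 := mul_le_mul_of_nonneg_left v2 hI
    have x3 := mul_le_mul_of_nonneg_left v3 hI
    calc Real.sqrt q / h * (I ^ (1 / 2 : ℝ) * a₁ + I * a₂ + I * a₃)
        = I ^ (1 / 2 : ℝ) * (Real.sqrt q / h * a₁) + I * (Real.sqrt q / h * a₂) +
          I * (Real.sqrt q / h * a₃) := by ring
      _ ≤ I ^ (1 / 2 : ℝ) * (g * m * b₁) + I * (g * m) + I * (g * m * (A * g / T)) := by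
          linarith
      _ = g * m * (I ^ (1 / 2 : ℝ) * b₁ + I * (1 + A * g / T)) := by ring
  set S := I ^ (1 / 2 : ℝ) * b₁ + I * (1 + A * g / T) with hS
  have hS0 : 0 ≤ S := by rw [hS]; positivity
  have hpre : 0 ≤ A * (δ * ((R * d ^ 2) * dk * T ^ ε₁)) := by positivity
  calc A * (Real.sqrt q / h * (δ * ((R * d ^ 2) * dk * T ^ ε₁ *
        (I ^ (1 / 2 : ℝ) * a₁ + I * a₂ + I * a₃))))
      = A * (δ * ((R * d ^ 2) * dk * T ^ ε₁)) *
        (Real.sqrt q / h * (I ^ (1 / 2 : ℝ) * a₁ + I * a₂ + I * a₃)) := by ring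
    _ ≤ A * (δ * ((R * d ^ 2) * dk * T ^ ε₁)) * (g * m * S) :=
        mul_le_mul_of_nonneg_left hsum hpre
    _ = (δ * (2 * c * c₂)) * (A * g * (D * dk * (R * (R * Y)) * T ^ ε₁ * S)) * d ^ 5 := by
        rw [hm]; ring
    _ ≤ (δ * (2 * c * c₂)) * (A * g * (D * dk * (R * (R * Y)) * T ^ ε₁ * S)) *
        (Cd * T ^ ε₁) := by
        refine mul_le_mul_of_nonneg_left hdd (by positivity)
    _ = (δ * (2 * c * c₂ * Cd)) * (A * g * (D * dk * (R * (R * Y)) * T ^ ε * S)) := by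
        rw [hε, Real.rpow_add (by linarith)]; ring
    _ ≤ (δ * (2 * c * c₂ * Cd)) * (A * g * (D * dk * (R * Y) ^ 3 * T ^ ε * S)) := by
        have h1 : R * (R * Y) ≤ (R * Y) ^ 3 := by
          have h2 : R ≤ R * Y := le_mul_of_one_le_right (by linarith) hY
          have h3 : R * (R * Y) ≤ (R * Y) * (R * Y) :=
            mul_le_mul_of_nonneg_right h2 (by positivity)
          have h4 : (R * Y) * (R * Y) ≤ (R * Y) * (R * Y) * (R * Y) :=
            le_mul_of_one_le_right (by positivity) hRY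
          calc R * (R * Y) ≤ (R * Y) * (R * Y) := h3
            _ ≤ (R * Y) * (R * Y) * (R * Y) := h4
            _ = (R * Y) ^ 3 := by ring
        have h5 : 0 ≤ T ^ ε * S := by positivity
        have h6 : D * dk * (R * (R * Y)) * T ^ ε * S ≤ D * dk * (R * Y) ^ 3 * T ^ ε * S := by
          have := mul_le_mul_of_nonneg_left h1 (show 0 ≤ D * dk by positivity)
          have := mul_le_mul_of_nonneg_right this h5
          calc D * dk * (R * (R * Y)) * T ^ ε * S = D * dk * (R * (R * Y)) * (T ^ ε * S) := by ring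
            _ ≤ D * dk * (R * Y) ^ 3 * (T ^ ε * S) := this
            _ = D * dk * (R * Y) ^ 3 * T ^ ε * S := by ring
        exact mul_le_mul_of_nonneg_left (mul_le_mul_of_nonneg_left h6 (by positivity))
          (by positivity)

private theorem one_le_Nf' {K : Type} [Field K] [NumberField K] {f : Ideal (𝓞 K)} (hf : f ≠ ⊥) :
    1 ≤ Nf K f := by
  unfold Nf
  have h : Ideal.absNorm f ≠ 0 := fun h => hf (Ideal.absNorm_eq_zero_iff.1 h)
  exact_mod_cast Nat.one_le_iff_ne_zero.2 h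

private theorem Nf_mul' {K : Type} [Field K] [NumberField K] (f g : Ideal (𝓞 K)) :
    Nf K (f * g) = Nf K f * Nf K g := by
  unfold Nf
  rw [map_mul]
  push_cast
  rfl

private theorem Nf_le' {K : Type} [Field K] [NumberField K] {f g : Ideal (𝓞 K)} (hf : f ≠ ⊥)
    (h : f ≤ g) : Nf K g ≤ Nf K f := by
  unfold Nf
  have h1 : Ideal.absNorm f ≠ 0 := fun h => hf (Ideal.absNorm_eq_zero_iff.1 h)
  exact_mod_cast Nat.le_of_dvd (Nat.pos_of_ne_zero h1)
    (Ideal.absNorm_dvd_absNorm_of_le h)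

private theorem one_le_PP' {K : Type} [Field K] [NumberField K] {R : InfinitePlace K → ℝ}
    (h : ∀ v, 1 ≤ R v) : 1 ≤ PP R := by
  unfold PP
  exact Finset.prod_induction _ (fun x => 1 ≤ x)
    (fun a b ha hb => one_le_mul_of_one_le_of_one_le ha hb) le_rfl
    (fun v _ => one_le_pow₀ (h v))

/-- (OC) the sums over the differences of a given class. -/
theorem pf_OC (hP1 : F_P1) (hP2 : F_P2) (hSM : F_SM) (hID : F_ID)
    (hDV : Pool.Agent.H29.TC.T_DV) : F_OC := by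
  classical
  intro n C₂ ε q Ψ hn hC₂ hε hq hΨ
  obtain ⟨N, hN, h2⟩ := hP2 n (ε / 2) hn (by positivity)
  obtain ⟨C₁, C, hC₁, hC, h1⟩ := hP1 n q Ψ N hn hq hΨ hN
  obtain ⟨C₃, hC₃, h3⟩ := h2 C₁ hC₁
  obtain ⟨Cs, hCs, hSM⟩ := hSM n hn
  obtain ⟨Cd', hDV⟩ := hDV n (ε / 10) (by positivity)
  obtain ⟨Cd, hCd⟩ : ∃ Cd : ℝ, Cd = max 1 Cd' := ⟨_, rfl⟩
  have hCd1 : 1 ≤ Cd := by rw [hCd]; exact le_max_left _ _
  refine ⟨C * (C₃ * (2 * Cs * C₂ * Cd ^ 5)), by positivity, ?_⟩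
  intro K _ _ hK l s k κ b κ₃ b₃ e k' se s' g f Y M y ω ρ G α τ A ι I γ c qq E D hSK hl2 hM hω hρ
    hCn hke hsse heκ hseκ hsegf hFT hCO hA hG hcls hcc hS hD
  obtain ⟨he0, hk'0, hse0, hs'0, -, -, hNk, hNs, hNsk, hNs'k', hNκ, -, hNk'H, hNHr, hNH, -⟩ :=
    hID K l s k κ b κ₃ b₃ e k' se s' Y hSK hCn hke hsse heκ hseκ
  have hl0 : l ≠ ⊥ := hSK.lk.l_ne
  have hsk0 : s * k ≠ ⊥ := hSK.lk.k_ne
  have hs0 : s ≠ ⊥ := fun h => hsk0 (by rw [h, Ideal.bot_mul])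
  have hk0 : k ≠ ⊥ := fun h => hsk0 (by rw [h, Ideal.mul_bot])
  have hr0 : k.radical ≠ ⊥ := by
    intro h
    exact hk0 (le_bot_iff.mp (h ▸ Ideal.le_radical))
  have hg0 : g ≠ ⊥ := fun h => hse0 (by rw [hsegf, h, Ideal.bot_mul])
  have hf0 : f ≠ ⊥ := fun h => hse0 (by rw [hsegf, h, Ideal.mul_bot])
  have hκ0 : κ ≠ ⊥ := fun h => hsk0 (le_bot_iff.mp (h ▸ hCn.kq.le))
  have hH0 : (k.radical ⊓ k') * s' ≠ ⊥ := by
    intro h
    have h5 : Nf K ((k.radical ⊓ k') * s') = 0 := by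
      rw [h]; unfold Nf; simp
    rw [hNH] at h5
    have h6 := one_le_Nf' hs'0
    have h7 := one_le_Nf' hk'0
    rcases mul_eq_zero.1 h5 with h8 | h8 <;> linarith
  have hF0 : e * f ≠ ⊥ := mul_ne_zero he0 hf0
  have hG1 : ∀ v, 1 ≤ G v := fun v => (hG v).1
  have hτ1 : ∀ v, 1 ≤ τ v := fun v => (one_le_pow₀ (hG1 v)).trans (hG v).2.2.2.2
  have hP1' : 1 ≤ PP τ := one_le_PP' hτ1
  have hPG : 1 ≤ PP G := one_le_PP' hG1
  have hNg := one_le_Nf' hg0
  have hNf := one_le_Nf' hf0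
  have hNe := one_le_Nf' he0
  have hNl := one_le_Nf' hl0
  have hNR := one_le_Nf' hr0
  have hNs1 := one_le_Nf' hs0
  have hNk1 := one_le_Nf' hk0
  have hNs'1 := one_le_Nf' hs'0
  have hNk'1 := one_le_Nf' hk'0
  have hNκ1 := one_le_Nf' hκ0
  have hNq : 1 ≤ Nf K (s' * k') := by
    rw [hNs'k']; exact one_le_mul_of_one_le_of_one_le hNs'1 hNk'1
  have hNse : Nf K se = Nf K g * Nf K f := by rw [hsegf, Nf_mul']
  have hNqh : Nf K (s' * k') ≤ Nf K ((k.radical ⊓ k') * s') := by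
    rw [hNs'k', hNH, mul_comm]
    exact mul_le_mul_of_nonneg_right hNk'H (by linarith)
  have hNh1 : 1 ≤ Nf K ((k.radical ⊓ k') * s') := hNq.trans hNqh
  have hT : Nf K (s * k) * PP τ = (Nf K g * Nf K f) * Nf K e * Nf K (s' * k') * PP τ := by
    rw [hNsk, hNs, hNk, hNse, hNs'k']; ring
  have hNsk1 : 1 ≤ Nf K (s * k) := one_le_Nf' hsk0
  have hT1 : 1 ≤ Nf K (s * k) * PP τ := one_le_mul_of_one_le_of_one_le hNsk1 hP1'
  have hdv0 : 1 ≤ ((dvs K s).card : ℝ) := by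
    have h5 : s ∈ dvs K s := by
      unfold dvs
      have hfin : {e : Ideal (𝓞 K) | s ≤ e}.Finite := by
        refine (Ideal.finite_setOfPred_absNorm_le (S := 𝓞 K) (Ideal.absNorm s)).subset ?_
        intro a ha
        have h7 : Ideal.absNorm s ≠ 0 := fun h => hs0 (Ideal.absNorm_eq_zero_iff.1 h)
        exact Nat.le_of_dvd (Nat.pos_of_ne_zero h7) (Ideal.absNorm_dvd_absNorm_of_le ha)
      rw [dif_pos hfin, Set.Finite.mem_toFinset]
      exact le_refl s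
    exact_mod_cast Finset.card_pos.2 ⟨s, h5⟩
  have hY0 : 0 ≤ Y := by linarith [hSK.one]
  have z1 : 0 ≤ Nf K k.radical := by linarith
  have z2 : 0 ≤ Nf K (e * f) := by linarith [one_le_Nf' hF0]
  have z3 : 0 ≤ Nf K (s' * k') := by linarith
  have z4 : 0 ≤ Nf K e := by linarith
  have z5 : 0 ≤ Nf K g := by linarith
  have z6 : 0 ≤ Nf K f := by linarith
  have hDD0 : 0 ≤ DD M y / Nf K l := by
    refine div_nonneg ?_ (by linarith)
    unfold DD
    exact div_nonneg (Real.exp_pos _).le (by exact_mod_cast FractionalIdeal.absNorm_nonneg M)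
  have hEn : ∀ i ∈ I, ∀ ν ∈ Nh ((k.radical ⊓ k') * s') (e * f),
      ‖E i ν‖ ≤ Nf K k.radical * (dvs K s).card ^ 2 := by
    obtain ⟨E₀, Et, hE0, hEt, -⟩ := hCO.fac
    intro i hi ν hν
    have e1 := hE0 ν hν
    obtain ⟨e2, e3⟩ := hEt i hi ν hν
    rw [e3, norm_mul]
    nlinarith [sq_nonneg (‖E₀ ν‖ - ‖Et i ν‖)]
  have hspG := hSM K hK l s k κ b κ₃ b₃ e k' se s' Y ι I γ c G α D hSK hCn hke hsse heκ hseκ
    (fun j hj => (hcls j hj).real) (fun v => ⟨(hG v).2.1, by linarith [hG1 v], by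
      have := (hG v).2.2.2.1
      nlinarith⟩) (fun i hi j hj => (hcc i hi j hj).1) hS
  rw [show Nf K e * Nf K se = Nf K e * (Nf K g * Nf K f) by rw [hNse]] at hspG hCO
  have hNF : Nf K (e * f) = Nf K e * Nf K f := Nf_mul' e f
  have hww : ∀ i j, 0 ≤ ww k.radical k' (s' ⊔ κ₃) γ i j := by
    intro i j
    unfold ww
    split_ifs
    · unfold Nf; positivity
    · exact le_rfl
  refine (h1 K hK l k.radical ((k.radical ⊓ k') * s') (e * f) M y ω ρ G α A ι I qq E c _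
    (Nf K k.radical * (dvs K s).card ^ 2) _ hl0 hl2 hr0 hH0 hF0 hM hω hρ (by positivity)
    (fun v => ⟨(hG v).1, (hG v).2.1, (hG v).2.2.1, (hG v).2.2.2.1⟩) hFT hEn hA
    (fun i hi v => (hcls i hi).real v)
    (fun Q bb hQ hb => h3 K hK l ((k.radical ⊓ k') * s') (e * f) M y ω G α τ A ι I c E
      (ww k.radical k' (s' ⊔ κ₃) γ) _
      (Cs * (D * ((dvs K s).card * Nf K k.radical * (Nf K e * (Nf K g * Nf K f) / Nf K κ)))) _ _
      (Nf K (s * k) * PP τ) Q bb hl0 hH0 hF0 hM hω hCO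
      (one_le_mul_of_one_le_of_one_le hNR (one_le_pow₀ hdv0)) (by positivity) (by
        have := hSK.one
        positivity) (fun δ hδ => ⟨(hFT.mem δ hδ).2, hA δ hδ⟩) hG hcls
      (fun i hi j hj => ⟨hww i j, (hcc i hi j hj).2⟩) (fun i hi => hspG i hi) hT1 ?_ hQ hb)).trans
      ?_
  · have h5 : Nf K k.radical ≤ Nf K k := Nf_le' hk0 Ideal.le_radical
    have h6 : Nf K ((k.radical ⊓ k') * s') ≤ Nf K k.radical * Nf K (s' * k') := by
      rw [hNH, hNs'k']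
      calc Nf K (k.radical ⊓ k') * Nf K s' ≤ (Nf K k.radical * Nf K k') * Nf K s' :=
            mul_le_mul_of_nonneg_right hNHr (by linarith)
        _ = Nf K k.radical * (Nf K s' * Nf K k') := by ring
    have h7 : Nf K (s' * k') ≤ Nf K (s * k) := by
      rw [hNs'k', hNsk, hNs, hNk]
      have h8 : 1 ≤ Nf K se := one_le_Nf' hse0
      nlinarith [mul_le_mul_of_nonneg_right (one_le_mul_of_one_le_of_one_le h8 hNe)
        (show 0 ≤ Nf K s' * Nf K k' by positivity)]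
    have h8 : Nf K k ≤ Nf K (s * k) := by
      rw [hNsk]
      exact le_mul_of_one_le_left (by linarith) hNs1
    have h9 : Nf K ((k.radical ⊓ k') * s') ≤ Nf K (s * k) * Nf K (s * k) :=
      h6.trans (mul_le_mul (h5.trans h8) h7 z3 (by linarith))
    calc Nf K ((k.radical ⊓ k') * s') * PP τ
        ≤ (Nf K (s * k) * Nf K (s * k)) * (PP τ * PP τ) := by
          refine mul_le_mul h9 (le_mul_of_one_le_left (by linarith) hP1') (by linarith)
            (by positivity)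
      _ = (Nf K (s * k) * PP τ) ^ 2 := by ring
  · have h5 : ((dvs K s).card : ℝ) ^ 5 ≤ Cd ^ 5 * (Nf K (s * k) * PP τ) ^ (ε / 2) := by
      have h6 : ((dvs K s).card : ℝ) ≤ Cd * (Nf K (s * k) * PP τ) ^ (ε / 10) := by
        refine (hDV K hK s hs0).trans ?_
        refine mul_le_mul (by rw [hCd]; exact le_max_right _ _) ?_ (by positivity) (by linarith)
        refine Real.rpow_le_rpow (by linarith) ?_ (by positivity)
        have h8 : Nf K s ≤ Nf K (s * k) := by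
          rw [hNsk]
          exact le_mul_of_one_le_right (by linarith) hNk1
        exact h8.trans (le_mul_of_one_le_right (by linarith) hP1')
      calc ((dvs K s).card : ℝ) ^ 5 ≤ (Cd * (Nf K (s * k) * PP τ) ^ (ε / 10)) ^ 5 :=
            pow_le_pow_left₀ (by positivity) h6 5
        _ = Cd ^ 5 * (Nf K (s * k) * PP τ) ^ (ε / 2) := by
            rw [mul_pow, ← Real.rpow_natCast, ← Real.rpow_natCast ((Nf K (s * k) * PP τ) ^ (ε / 10)),
              ← Real.rpow_mul (by linarith)]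
            congr 2
            push_cast
            ring
    have h6 := tot (Nf K g) (Nf K f) (Nf K e) (Nf K (s' * k')) (Nf K ((k.radical ⊓ k') * s'))
      (Nf K κ) (Nf K k.radical) (dvs K s).card D (PP τ) (PP G) Cs C₂ (Cd ^ 5)
      (Nf K (s * k) * PP τ) Y (DD M y / Nf K l) I.card C₃ (dK K ^ 2) (ε / 2) ε hNg hNf hNe hNq
      hNqh (by linarith) (by rw [← hNse]; exact hNκ) hNR hdv0 hD hP1' (by linarith) hCs hC₂
      hSK.one hDD0 (by positivity) hT hC₃ (by positivity) (one_le_pow₀ hCd1) h5 (by ring)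
    rw [hNF]
    calc _ ≤ C * _ := mul_le_mul_of_nonneg_left h6 hC
      _ = _ := by ring

end Pool.Agent.H68.DF.OC
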