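import Pool.Agent.H23.DF.TargetsG
import Pool.Agent.H23.DF.TargetsL
import Pool.Agent.H19.DMQ.Q1a
import Pool.Agent.H59.SM.K1

/-!
# Friable conductors: row Q1 (small radii)
-/

set_option autoImplicit false

open NumberField NumberField.InfinitePlace MeasureTheory

namespace Pool.Agent.H68.DF.Q1

open Pool.Agent.H25.HK Pool.Agent.H23.LB Pool.Agent.H23.LC Pool.Agent.H23.DF
open Pool.Agent.H27.TM (Dl Cls Maj M_RK M_MJ M_DL)
open Pool.Agent.H29.DW (dg Rl lf wv Pos rv)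
open Pool.Agent.H29.TC (Gn LC cq dvs MC)
open Pool.Agent.H31.SW (EE itg FF DD PP pF dK Pf GG)
open Pool.Agent.H31.SX (ND)
open Pool.Agent.H23.DM (lg5 h5 Fq Mz cm SQ MP OQ de SpE SpG FP PhZ PY LoC Lab QB Clq D_RP D_CL)
open Pool.Agent.H19.TMB.BL (one_le_PP)
open Pool.Agent.H19.DM.BL (one_le_Nf norm_cq_le OQ_split)
open Pool.Agent.H19.DMQ.Q1 (PP_half PP_cub PP_max PP_pos card_label sum_root cells_num coll)

private theorem FT_mono {K : Type} [Field K] [NumberField K] {l r H F : Ideal (𝓞 K)} {M : FI K}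
    {ρ : K} {A A' : Set K} {ι : Type} {I : Finset ι} {q E : ι → K → ℂ} {W : ℝ}
    (h : FT l r H F M ρ A I q E W) (hA : A' ⊆ A) : FT l r H F M ρ A' I q E W where
  mem δ hδ := h.mem δ (hA hδ)
  norm := h.norm
  per δ hδ := h.per δ (hA hδ)
  ft δ hδ := h.ft δ (hA hδ)

private theorem FT_sub {K : Type} [Field K] [NumberField K] {l r H F : Ideal (𝓞 K)} {M : FI K}
    {ρ : K} {A : Set K} {ι : Type} {I I' : Finset ι} {q E : ι → K → ℂ} {W : ℝ}
    (h : FT l r H F M ρ A I q E W) (hI : I' ⊆ I) : FT l r H F M ρ A I' q E W where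
  mem := h.mem
  norm i hi := h.norm i (hI hi)
  per δ hδ i hi := h.per δ hδ i (hI hi)
  ft δ hδ := by
    obtain ⟨φ, h1, h2⟩ := h.ft δ hδ
    exact ⟨φ, h1, fun i hi => h2 i (hI hi)⟩

private theorem card_dvs_le {K : Type} [Field K] [NumberField K] {k e : Ideal (𝓞 K)}
    (hk : k ≠ ⊥) (h : k ≤ e) : (dvs K e).card ≤ (dvs K k).card := by
  have hfin : ∀ f : Ideal (𝓞 K), f ≠ ⊥ → {e : Ideal (𝓞 K) | f ≤ e}.Finite := by
    intro f hf
    refine (Ideal.finite_setOfPred_absNorm_le (S := 𝓞 K) (Ideal.absNorm f)).subset ?_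
    intro a ha
    have h7 : Ideal.absNorm f ≠ 0 := fun h => hf (Ideal.absNorm_eq_zero_iff.1 h)
    exact Nat.le_of_dvd (Nat.pos_of_ne_zero h7) (Ideal.absNorm_dvd_absNorm_of_le ha)
  have he : e ≠ ⊥ := fun h' => hk (le_bot_iff.mp (h' ▸ h))
  refine Finset.card_le_card ?_
  intro a ha
  unfold dvs at ha ⊢
  rw [dif_pos (hfin e he), Set.Finite.mem_toFinset] at ha
  rw [dif_pos (hfin k hk), Set.Finite.mem_toFinset]
  exact h.trans ha

private theorem fac_of_dvs {K : Type} [Field K] [NumberField K] {k g : Ideal (𝓞 K)}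
    (h : g ∈ dvs K k) : ∃ f, k = g * f := by
  unfold dvs at h
  split_ifs at h with h1
  · rw [Set.Finite.mem_toFinset] at h
    exact Ideal.dvd_iff_le.2 h
  · simp at h

/-- (Q1) the mean square over a family of boxes with small radii at a fixed position. -/
theorem pf_Q1 (hRK : M_RK) (hMJ : M_MJ) (hDL : M_DL) (hMQ : F_MQ) (hDY : F_DY) (hOC : F_OC)
    (hSO : F_SO) (hRP : D_RP) (hCL : D_CL) (hDC : F_DC) (hCH : F_CH) (hLN : F_LN)
    (hDV : Pool.Agent.H29.TC.T_DV) : F_Q1 := by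
  classical
  intro n ε p hn hε hp
  obtain ⟨q, hq, hpq⟩ := hRK p hp
  obtain ⟨Φ, Ψ, C₀, hC₀, hΦ⟩ := hMJ
  obtain ⟨Ca, hCa, hMQ⟩ := hMQ n p q Φ Ψ C₀ hn hp hq hpq hC₀ hΦ
  obtain ⟨Cb, hCb, hDY⟩ := hDY n q Ψ hn hq hΦ.psi
  obtain ⟨Cl, hCl, hlog⟩ := Pool.Agent.H59.SM.K1.lg n hn (ε / 4) (by positivity)
  obtain ⟨Cx, hCx, hDC⟩ := hDC n hn
  obtain ⟨Cd, hCd, hOC⟩ := hOC n Cx (ε / 4) q Ψ hn hCx (by positivity) hq hΦ.psi
  obtain ⟨Cv', hDV⟩ := hDV n (ε / 8) (by positivity)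
  obtain ⟨C₇, -, hDL⟩ := hDL n hn
  obtain ⟨Cc, hCc, hCL⟩ := hCL n hn
  obtain ⟨Cv, hCv'⟩ : ∃ Cv : ℝ, Cv = max 0 Cv' := ⟨_, rfl⟩
  have hCv : 0 ≤ Cv := by rw [hCv']; exact le_max_left _ _
  obtain ⟨C₁, hC₁⟩ : ∃ C₁ : ℝ, C₁ = Cc * 2 ^ n * 9 ^ n := ⟨_, rfl⟩
  have hC₁1 : 1 ≤ C₁ := by
    rw [hC₁]
    exact one_le_mul_of_one_le_of_one_le (one_le_mul_of_one_le_of_one_le hCc
      (one_le_pow₀ (by norm_num))) (one_le_pow₀ (by norm_num))
  have hC₁0 : 0 ≤ C₁ := by linarith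
  have hCc0 : 0 ≤ Cc := by linarith
  refine ⟨Ca * (C₁ * Cb + Cb * Cl * (Cv * Cv) * Cd * 9 ^ n * (Cc * C₁ + C₁)), by positivity, ?_⟩
  intro K _ _ hK l s k κ Y θ M x₀ y ω ρ G τ ι J bl η γ c D hSK hFP hω hρM hKq hFN hG hcls hlab
    hspc hD
  have hsk : s * k ≠ ⊥ := hFP.lk.k_ne
  have hs0 : s ≠ ⊥ := fun h => hsk (by rw [h, Ideal.bot_mul])
  have hk : k ≠ ⊥ := fun h => hsk (by rw [h, Ideal.mul_bot])
  have hkκ : s * k ≤ κ := hKq.le
  have hY : 1 ≤ Y := hSK.one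
  obtain ⟨b, κ₃, b₃, hCn, hκ0, hb0, hκ₃0, hb₃0, -, hnorm3⟩ := hCH K l s k κ Y hSK hKq
  have hr0 : k.radical ≠ ⊥ := by
    intro h
    exact hk (le_bot_iff.mp (h ▸ Ideal.le_radical))
  have hNk1 := one_le_Nf hsk
  have hNr1 := one_le_Nf hr0
  have hNκ1 := one_le_Nf hκ0
  have hNl1 := one_le_Nf hFP.lk.l_ne
  have hG1 : ∀ v, 1 ≤ G v := fun v => (hG v).1
  have hG0 : ∀ v, 0 < G v := fun v => by linarith [hG1 v]
  have hPG1 : 1 ≤ PP G := one_le_PP hG1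
  obtain ⟨P, hP⟩ : ∃ P : ℝ, P = Nf K κ * PP G := ⟨_, rfl⟩
  have hP1 : 1 ≤ P := by rw [hP]; exact one_le_mul_of_one_le_of_one_le hNκ1 hPG1
  have hP0 : 0 < P := by linarith
  have hτ1 : ∀ v, 1 ≤ τ v := fun v => (one_le_pow₀ (hG1 v)).trans (hG v).2
  have hPτ1 : 1 ≤ PP τ := one_le_PP hτ1
  obtain ⟨T, hT⟩ : ∃ T : ℝ, T = Nf K (s * k) * PP τ := ⟨_, rfl⟩
  have hT1 : 1 ≤ T := by rw [hT]; exact one_le_mul_of_one_le_of_one_le hNk1 hPτ1
  have hT0 : 0 < T := by linarith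
  have hkT : Nf K (s * k) ≤ T := by rw [hT]; exact le_mul_of_one_le_right (by linarith) hPτ1
  obtain ⟨r, hr⟩ : ∃ r : ℝ, r = Nf K k.radical * Y := ⟨_, rfl⟩
  have hr1 : 1 ≤ r := by rw [hr]; exact one_le_mul_of_one_le_of_one_le hNr1 hY
  have hr0r : Nf K k.radical ≤ r := by rw [hr]; exact le_mul_of_one_le_right (by linarith) hY
  obtain ⟨δ, hδ⟩ : ∃ δ : ℝ, δ = DD M y / Nf K l := ⟨_, rfl⟩
  have hd1 : 1 ≤ dK K := by
    unfold dK
    have h : (1 : ℤ) ≤ |discr K| := Int.one_le_abs (discr_ne_zero K)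
    have h2 : ((1 : ℤ) : ℝ) ≤ ((|discr K| : ℤ) : ℝ) := by exact_mod_cast h
    simpa using h2
  have hδ0 : 0 ≤ δ := by
    rw [hδ]
    unfold DD
    have : (0 : ℝ) ≤ (FractionalIdeal.absNorm M : ℝ) := by
      exact_mod_cast FractionalIdeal.absNorm_nonneg M
    have h2 : 0 < Nf K l := by linarith
    positivity
  have hq0 : 0 ≤ δ / T := by positivity
  obtain ⟨R, hR⟩ : ∃ R : ℝ, R = ((J.image bl).card : ℝ) := ⟨_, rfl⟩
  have hR0 : 0 ≤ R := by rw [hR]; exact Nat.cast_nonneg _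
  have hQB : QB (s * k) κ τ G R = R * P + R ^ (1 / 2 : ℝ) * (T / P ^ 2) := by
    unfold QB
    rw [PP_max (fun v => (hG v).2), ← hP, ← hT]
  rw [← hδ, ← hr, ← hT, ← hR]
  obtain ⟨I, ρ', hIJ, hρ', hspI⟩ := hRP n K hK ι J γ b c G hG0 (fun j hj v => (hcls j hj).real v)
  have hlκ : l ⊔ κ = ⊤ := by
    rw [eq_top_iff, ← hFP.lk.cop]
    exact sup_le_sup le_rfl hkκ
  obtain ⟨A, hA1, hA2, hA3⟩ := hDY K hK l k.radical κ M y ω ρ G hFP.lk.l_ne hκ0 hlκ hFP.M_ne hω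
    hKq.rad hG1 hρM
  rw [← hδ] at hA1 hA3
  have hmcJ : ∀ j ∈ J, MC (η j) := fun j hj => (hFN.lc j hj).mc
  have hEFb : ∀ i ∈ J, ∀ j ∈ J, (γ i - γ j ∈ b ↔ ∀ t ∈ κ,
      η i (Ideal.Quotient.mk (s * k) (1 + t)) = η j (Ideal.Quotient.mk (s * k) (1 + t))) :=
    fun i hi j hj => hFN.eq i hi j hj κ b le_sup_left hCn.b_eq
  have hA : (A.card : ℝ) ≤ Cb * (Cl * (T ^ (ε / 4) * (1 + δ / T) ^ (1 / 2 : ℝ))) :=
    hA1.trans (mul_le_mul_of_nonneg_left (hlog T δ hT1 hδ0) hCb)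
  -- the mean square
  have hsum : ∑ j ∈ J, ‖SQ p (((l * k.radical : Ideal (𝓞 K)) : FI K) * M) y ω ρ
      (cq (s * k) (η j) M x₀) (c j)‖ ^ 2 ≤
      ∑ i ∈ I, Ca * (D * P * ‖MP q Ψ (((l * k.radical : Ideal (𝓞 K)) : FI K) * M)
        ((κ : FI K) * M) y ω ρ (cq (s * k) (η i) M x₀) G (c i)‖) := by
    rw [← Finset.sum_fiberwise_of_maps_to (fun j hj => (hρ' j hj).1)]
    refine Finset.sum_le_sum fun i hi => ?_
    rw [hP]
    refine hMQ K hK l (s * k) k.radical κ M x₀ y ω ρ ι (J.filter fun j => ρ' j = i) η (η i) c (c i) G D hFP hω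
      hkκ hKq.rad hG1 hρM (hmcJ i (hIJ hi)) (fun j hj => ?_)
      (fun v => (hcls i (hIJ hi)).real v) (fun j hj v => ?_) (fun η₀ c₀ => ?_)
    · rw [Finset.mem_filter] at hj
      refine ⟨hmcJ j hj.1, ?_⟩
      have h1 := (hρ' j hj.1).2.1
      rw [hj.2] at h1
      exact (hEFb j hj.1 i (hIJ hi)).mp h1
    · rw [Finset.mem_filter] at hj
      refine ⟨(hcls j hj.1).real v, ?_⟩
      have := (hρ' j hj.1).2.2 v
      rw [hj.2] at this
      exact this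
    · refine le_trans ?_ (hspc η₀ c₀)
      exact_mod_cast Finset.card_le_card (Finset.filter_subset_filter _
        (Finset.filter_subset _ _))
  -- the number of the representatives
  have hIR : (I.card : ℝ) ≤ C₁ * R := by
    have h1 : (I.card : ℝ) = ∑ m ∈ I.image bl, ((I.filter fun j => bl j = m).card : ℝ) := by
      rw [Finset.card_eq_sum_card_image bl I]
      push_cast
      rfl
    have h2 : ∀ m ∈ I.image bl, ((I.filter fun j => bl j = m).card : ℝ) ≤ C₁ := by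
      intro m _
      rw [hC₁]
      refine card_label hK hCc0 (fun ι J γ b c τ H => hCL K hK ι J γ b c τ H) I γ b c G (9 ^ n)
        (by positivity) hG0 (fun j hj v => (hcls j (hIJ hj)).real v) hspI _
        (Finset.filter_subset _ _) (fun i hi j hj => ?_)
      rw [Finset.mem_filter] at hi hj
      have h3 := hlab i (hIJ hi.1) j (hIJ hj.1) (hi.2.trans hj.2.symm)
      exact ⟨(hEFb i (hIJ hi.1) j (hIJ hj.1)).mpr h3.1, h3.2⟩
    have h3 : ((I.image bl).card : ℝ) ≤ R := by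
      rw [hR]
      exact_mod_cast Finset.card_le_card (Finset.image_subset_image hIJ)
    rw [h1]
    refine (Finset.sum_le_sum h2).trans ?_
    rw [Finset.sum_const, nsmul_eq_mul, mul_comm]
    exact mul_le_mul_of_nonneg_left h3 hC₁0
  -- the cells
  obtain ⟨cl', hcell1, hcell2⟩ := hCL K hK ι I γ b₃ c τ (fun v => G v ^ 3) hb₃0
    (fun v => ⟨pow_pos (hG0 v) 3, (hG v).2⟩)
    (fun j hj v => ⟨(hcls j (hIJ hj)).real v, by
      have h1 := (hcls j (hIJ hj)).upp v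
      linarith⟩)
  have hcells : ((I.image cl').card : ℝ) ≤ Cc * (T / P ^ 3) := by
    refine hcell1.trans (mul_le_mul_of_nonneg_left ?_ (by linarith))
    rw [PP_cub, hT, hP, hnorm3, mul_pow]
    have h3 : 0 < PP G := by linarith
    have h4 : 0 < Nf K κ := by linarith
    have h5 : 0 ≤ Nf K b₃ := by linarith [one_le_Nf hb₃0]
    rw [← mul_div_assoc, div_le_div_iff₀ (by positivity) (by positivity)]
    have h6 := mul_le_mul_of_nonneg_left hCn.lo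
      (show 0 ≤ Nf K b₃ * PP τ * PP G ^ 3 by positivity)
    calc Nf K b₃ * PP τ * (Nf K κ ^ 3 * PP G ^ 3) = Nf K b₃ * PP τ * PP G ^ 3 * Nf K κ ^ 3 := by
          ring
      _ ≤ Nf K b₃ * PP τ * PP G ^ 3 * Nf K κ₃ := h6
      _ = Nf K κ₃ * Nf K b₃ * PP τ * PP G ^ 3 := by ring
  obtain ⟨W, hW⟩ : ∃ W : ℝ, W = T ^ (1 / 2 : ℝ) * P ^ (-(3 / 2) : ℝ) := ⟨_, rfl⟩
  have hW0 : 0 ≤ W := by rw [hW]; positivity
  have hLk : (((l * κ : Ideal (𝓞 K)) : FI K) * M) ≠ 0 := by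
    refine mul_ne_zero ?_ hFP.M_ne
    rw [FractionalIdeal.coeIdeal_ne_zero]
    exact mul_ne_zero hFP.lk.l_ne hκ0
  obtain ⟨N, cl, hN, hcl, hcls2⟩ := hDC K hK l s k κ b κ₃ b₃ Y θ M x₀ ρ ι J η γ hSK hFP hCn hFN
    hρM
  have hTe : 0 ≤ T ^ (ε / 8) := by positivity
  have hdv : ∀ e : Ideal (𝓞 K), s * k ≤ e → ((dvs K e).card : ℝ) ≤ Cv * T ^ (ε / 8) := by
    intro e he
    have h0 : ((dvs K e).card : ℝ) ≤ (dvs K (s * k)).card := by
      exact_mod_cast card_dvs_le hsk he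
    refine h0.trans ((hDV K hK (s * k) hsk).trans ?_)
    have h1 : Cv' ≤ Cv := by rw [hCv']; exact le_max_right _ _
    have h2 : Nf K (s * k) ^ (ε / 8) ≤ T ^ (ε / 8) :=
      Real.rpow_le_rpow (by linarith) hkT (by positivity)
    have h3 : 0 ≤ Nf K (s * k) ^ (ε / 8) := by
      have : 0 ≤ Nf K (s * k) := by linarith
      positivity
    calc Cv' * Nf K (s * k) ^ (ε / 8) ≤ Cv * Nf K (s * k) ^ (ε / 8) :=
          mul_le_mul_of_nonneg_right h1 h3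
      _ ≤ Cv * T ^ (ε / 8) := mul_le_mul_of_nonneg_left h2 hCv
  have hNr : (N : ℝ) ≤ Cv * T ^ (ε / 8) * r := by
    refine hN.trans (mul_le_mul (hdv _ le_rfl) hr0r (by linarith) (by positivity))
  have hcell : ∀ I' : Finset ι, I' ⊆ I →
      (∀ i ∈ I', ∀ j ∈ I', γ i - γ j ∈ b₃ ∧ ∀ v, ‖c i v - c j v‖ ≤ 2 * G v ^ 3) →
      ∀ α ∈ A, ∑ i ∈ I', ‖OQ q Ψ (Dl (((l * κ : Ideal (𝓞 K)) : FI K) * M) y ω α)
      (((l * k.radical : Ideal (𝓞 K)) : FI K) * M) y ω ρ (cq (s * k) (η i) M x₀) G (c i)‖ ≤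
      (Cv * Cv * T ^ (ε / 4) * r) * (Cd * (δ * (9 ^ n * r * dK K ^ 2 * r ^ 2 * T ^ (ε / 4) *
        ((I'.card : ℝ) ^ (1 / 2 : ℝ) * W + I'.card * (1 + δ / T))))) := by
    intro I' hI' hblk α hα
    have hI'J : I' ⊆ J := hI'.trans hIJ
    have hα0 : ∀ v, 0 < α v := fun v => (hA2 α hα v).1
    obtain ⟨hfin, -, -⟩ := hDL K hK (((l * κ : Ideal (𝓞 K)) : FI K) * M) y ω α hLk hω hα0
    have hspI' : SpG I' b γ c G (9 ^ n) := by
      intro γ₀ c₀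
      refine le_trans ?_ (hspI γ₀ c₀)
      exact_mod_cast Finset.card_le_card (Finset.filter_subset_filter _ hI')
    have h1 : ∀ t ∈ Finset.range N, ∑ i ∈ I', ‖OQ q Ψ
        {δ | δ ∈ Dl (((l * κ : Ideal (𝓞 K)) : FI K) * M) y ω α ∧ cl δ = t}
        (((l * k.radical : Ideal (𝓞 K)) : FI K) * M) y ω ρ (cq (s * k) (η i) M x₀) G (c i)‖ ≤
        (Cv * T ^ (ε / 8)) * (Cd * (δ * (9 ^ n * dK K ^ 2 * r ^ 3 * T ^ (ε / 4) *
          ((I'.card : ℝ) ^ (1 / 2 : ℝ) * W + I'.card * (1 + δ / T))))) := by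
      intro t ht
      obtain ⟨e, k', se, s', ρg, μ, qg, Eg, hke, hsse, heκ, hseκ, hgf, hδ2⟩ :=
        hcls2 t (Finset.mem_range.mp ht)
      have hse0 : se ≠ ⊥ := fun h => hs0 (by rw [hsse, h, Ideal.bot_mul])
      have hskse : s * k ≤ se := by
        rw [hsse]
        exact Ideal.mul_le_left.trans Ideal.mul_le_left
      have hsub : {δ | δ ∈ Dl (((l * κ : Ideal (𝓞 K)) : FI K) * M) y ω α ∧ cl δ = t} ⊆
          {δ | δ ≠ 0 ∧ 2 * δ ∈ (((l * κ : Ideal (𝓞 K)) : FI K) * M) ∧ cl δ = t} := by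
        rintro x ⟨⟨hx1, hx2⟩, hx3⟩
        refine ⟨?_, hx1, hx3⟩
        rintro rfl
        obtain ⟨v₀⟩ : Nonempty (InfinitePlace K) := inferInstance
        have h2 := (hx2 v₀).1
        unfold wv at h2
        rw [map_zero, zero_mul, zero_mul, norm_zero] at h2
        linarith [hα0 v₀]
      have hlr : l * k.radical ⊔ se = ⊤ := by
        have e1 : l ⊔ se = ⊤ := by
          rw [eq_top_iff, ← hFP.lk.cop]
          exact sup_le_sup le_rfl hskse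
        have e2 : k.radical ⊔ se = ⊤ := by
          rw [eq_top_iff, ← hSK.cop, sup_comm]
          refine sup_le_sup Ideal.le_radical ?_
          rw [hsse]
          exact Ideal.mul_le_left
        exact Ideal.mul_sup_eq_of_coprime_left e1 |>.trans e2
      have h2se : Ideal.span {(2 : 𝓞 K)} ⊔ se = ⊤ := by
        rw [eq_top_iff, ← hFP.lk.big]
        refine sup_le_sup ?_ hskse
        rw [Ideal.span_singleton_le_span_singleton]
        exact ⟨105, by norm_num⟩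
      have hfint : {δ | δ ∈ Dl (((l * κ : Ideal (𝓞 K)) : FI K) * M) y ω α ∧ cl δ = t}.Finite :=
        hfin.subset fun x hx => hx.1
      have hso : ∀ i ∈ I', ‖OQ q Ψ
          {δ | δ ∈ Dl (((l * κ : Ideal (𝓞 K)) : FI K) * M) y ω α ∧ cl δ = t}
          (((l * k.radical : Ideal (𝓞 K)) : FI K) * M) y ω ρ (cq (s * k) (η i) M x₀) G (c i)‖ ≤
          ∑ g ∈ dvs K se, ‖OQ q Ψ
            {δ | δ ∈ Dl (((l * κ : Ideal (𝓞 K)) : FI K) * M) y ω α ∧ cl δ = t}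
            (((l * k.radical : Ideal (𝓞 K)) : FI K) * ((g : FI K) * M)) y ω (ρg g) (qg g i) G
            (c i)‖ := by
        intro i hi
        refine hSO q Ψ hq hΦ.psi K l k.radical se M y ω ρ G (c i) _ ρg μ
          (cq (s * k) (η i) M x₀) (fun g => qg g i) hFP.lk.l_ne hFP.ev hr0 hse0 hlr h2se hFP.M_ne
          hω hρM hfint (fun x hx => ?_) (fun g f hgf' => ⟨(hgf g f hgf').1, (hgf g f hgf').2.1⟩)
          (fun x hx u hu => ?_)
        · obtain ⟨x1, x2, x3⟩ := hsub hx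
          exact (hδ2 x x1 x2 x3).1
        · obtain ⟨x1, x2, x3⟩ := hsub hx
          exact (hδ2 x x1 x2 x3).2 u hu i (hI'J hi)
      have hg : ∀ g ∈ dvs K se, ∑ i ∈ I', ‖OQ q Ψ
            {δ | δ ∈ Dl (((l * κ : Ideal (𝓞 K)) : FI K) * M) y ω α ∧ cl δ = t}
            (((l * k.radical : Ideal (𝓞 K)) : FI K) * ((g : FI K) * M)) y ω (ρg g) (qg g i) G
            (c i)‖ ≤ Cd * (δ * (9 ^ n * dK K ^ 2 * r ^ 3 * T ^ (ε / 4) *
          ((I'.card : ℝ) ^ (1 / 2 : ℝ) * W + I'.card * (1 + δ / T)))) := by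
        intro g hg
        obtain ⟨f, hf⟩ := fac_of_dvs hg
        obtain ⟨hρg, -, hFT, hCO⟩ := hgf g f hf
        have hg0 : g ≠ ⊥ := fun h => hse0 (by rw [hf, h, Ideal.bot_mul])
        have hf0 : f ≠ ⊥ := fun h => hse0 (by rw [hf, h, Ideal.mul_bot])
        obtain ⟨-, -, -, -, hLN5, -⟩ := hLN K g f hg0 hf0
        obtain ⟨hgM, hDDg⟩ := hLN5 g M y hg0 hFP.M_ne
        have hδg : DD ((g : FI K) * M) y * Nf K g / Nf K l = δ := by
          rw [hDDg, hδ]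
          have := one_le_Nf hg0
          rw [div_mul_cancel₀ _ (by linarith)]
        have h3 := hOC K hK l s k κ b κ₃ b₃ e k' se s' g f Y ((g : FI K) * M) y ω (ρg g) G α τ
          {δ | δ ∈ Dl (((l * κ : Ideal (𝓞 K)) : FI K) * M) y ω α ∧ cl δ = t} ι I' γ c
          (qg g) (Eg g) (9 ^ n) hSK hFP.ev hgM hω hρg hCn hke hsse heκ hseκ hf
          (FT_sub (FT_mono hFT hsub) hI'J) (hCO I' hI'J fun i hi j hj => (hblk i hi j hj).1)
          (fun x hx v => hx.1.2 v)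
          (fun v => ⟨hG1 v, (hA2 α hα v).1, (hA2 α hα v).2.1, (hA2 α hα v).2.2, (hG v).2⟩)
          (fun i hi => hcls i (hI'J hi)) hblk hspI' (one_le_pow₀ (by norm_num))
        rw [hδg, ← hr, ← hT, ← hP, ← hW] at h3
        exact h3
      calc _ ≤ ∑ i ∈ I', ∑ g ∈ dvs K se, ‖OQ q Ψ
            {δ | δ ∈ Dl (((l * κ : Ideal (𝓞 K)) : FI K) * M) y ω α ∧ cl δ = t}
            (((l * k.radical : Ideal (𝓞 K)) : FI K) * ((g : FI K) * M)) y ω (ρg g) (qg g i) G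
            (c i)‖ := Finset.sum_le_sum hso
        _ = ∑ g ∈ dvs K se, ∑ i ∈ I', ‖OQ q Ψ
            {δ | δ ∈ Dl (((l * κ : Ideal (𝓞 K)) : FI K) * M) y ω α ∧ cl δ = t}
            (((l * k.radical : Ideal (𝓞 K)) : FI K) * ((g : FI K) * M)) y ω (ρg g) (qg g i) G
            (c i)‖ := Finset.sum_comm
        _ ≤ ((dvs K se).card : ℝ) * (Cd * (δ * (9 ^ n * dK K ^ 2 * r ^ 3 * T ^ (ε / 4) *
          ((I'.card : ℝ) ^ (1 / 2 : ℝ) * W + I'.card * (1 + δ / T))))) := by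
            refine (Finset.sum_le_sum hg).trans ?_
            rw [Finset.sum_const, nsmul_eq_mul]
        _ ≤ _ := mul_le_mul_of_nonneg_right (hdv se hskse) (by positivity)
    have e8 : T ^ (ε / 8) * T ^ (ε / 8) = T ^ (ε / 4) := by
      rw [← Real.rpow_add hT0]
      congr 1
      ring
    calc ∑ i ∈ I', ‖OQ q Ψ (Dl (((l * κ : Ideal (𝓞 K)) : FI K) * M) y ω α)
            (((l * k.radical : Ideal (𝓞 K)) : FI K) * M) y ω ρ (cq (s * k) (η i) M x₀) G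
            (c i)‖ ≤
        ∑ i ∈ I', ∑ t ∈ Finset.range N, ‖OQ q Ψ
          {δ | δ ∈ Dl (((l * κ : Ideal (𝓞 K)) : FI K) * M) y ω α ∧ cl δ = t}
          (((l * k.radical : Ideal (𝓞 K)) : FI K) * M) y ω ρ (cq (s * k) (η i) M x₀) G (c i)‖ :=
          Finset.sum_le_sum fun i _ => OQ_split q Ψ _ hfin _ y ω ρ _ G (c i) N cl hcl
      _ = ∑ t ∈ Finset.range N, ∑ i ∈ I', ‖OQ q Ψ
          {δ | δ ∈ Dl (((l * κ : Ideal (𝓞 K)) : FI K) * M) y ω α ∧ cl δ = t}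
          (((l * k.radical : Ideal (𝓞 K)) : FI K) * M) y ω ρ (cq (s * k) (η i) M x₀) G (c i)‖ :=
          Finset.sum_comm
      _ ≤ (N : ℝ) * ((Cv * T ^ (ε / 8)) * (Cd * (δ * (9 ^ n * dK K ^ 2 * r ^ 3 * T ^ (ε / 4) *
          ((I'.card : ℝ) ^ (1 / 2 : ℝ) * W + I'.card * (1 + δ / T)))))) := by
          refine (Finset.sum_le_sum h1).trans ?_
          rw [Finset.sum_const, nsmul_eq_mul, Finset.card_range]
      _ ≤ (Cv * T ^ (ε / 8) * r) * ((Cv * T ^ (ε / 8)) * (Cd * (δ * (9 ^ n * dK K ^ 2 * r ^ 3 *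
          T ^ (ε / 4) * ((I'.card : ℝ) ^ (1 / 2 : ℝ) * W + I'.card * (1 + δ / T)))))) :=
          mul_le_mul_of_nonneg_right hNr (by positivity)
      _ = (Cv * Cv * (T ^ (ε / 8) * T ^ (ε / 8)) * r) * (Cd * (δ * (9 ^ n * r * dK K ^ 2 *
          r ^ 2 * T ^ (ε / 4) * ((I'.card : ℝ) ^ (1 / 2 : ℝ) * W + I'.card * (1 + δ / T))))) := by
          ring
      _ = _ := by rw [e8]
  -- the sum over the cells
  have hOD : ∀ α ∈ A, ∑ i ∈ I, ‖OQ q Ψ (Dl (((l * κ : Ideal (𝓞 K)) : FI K) * M) y ω α)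
      (((l * k.radical : Ideal (𝓞 K)) : FI K) * M) y ω ρ (cq (s * k) (η i) M x₀) G (c i)‖ ≤
      (Cv * Cv * T ^ (ε / 4) * r) * (Cd * (δ * (9 ^ n * r * dK K ^ 2 * r ^ 2 * T ^ (ε / 4) *
        (Cc * C₁ * (R ^ (1 / 2 : ℝ) * (T / P ^ 3)) + C₁ * R * (1 + δ / T))))) := by
    intro α hα
    have h1 : ∑ i ∈ I, ‖OQ q Ψ (Dl (((l * κ : Ideal (𝓞 K)) : FI K) * M) y ω α)
        (((l * k.radical : Ideal (𝓞 K)) : FI K) * M) y ω ρ (cq (s * k) (η i) M x₀) G (c i)‖ ≤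
        ∑ m ∈ I.image cl', (Cv * Cv * T ^ (ε / 4) * r) * (Cd * (δ * (9 ^ n * r * dK K ^ 2 * r ^ 2 *
          T ^ (ε / 4) * (((I.filter fun j => cl' j = m).card : ℝ) ^ (1 / 2 : ℝ) * W +
            (I.filter fun j => cl' j = m).card * (1 + δ / T))))) := by
      rw [← Finset.sum_fiberwise_of_maps_to (t := I.image cl') (g := cl')
        (fun i hi => Finset.mem_image_of_mem cl' hi)]
      refine Finset.sum_le_sum fun m _ => ?_
      refine hcell _ (Finset.filter_subset _ _) (fun i hi j hj => ?_) α hα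
      rw [Finset.mem_filter] at hi hj
      exact hcell2 i hi.1 j hj.1 (hi.2.trans hj.2.symm)
    refine h1.trans ?_
    have h2 : ∑ m ∈ I.image cl', (Cv * Cv * T ^ (ε / 4) * r) * (Cd * (δ * (9 ^ n * r * dK K ^ 2 * r ^ 2 *
          T ^ (ε / 4) * (((I.filter fun j => cl' j = m).card : ℝ) ^ (1 / 2 : ℝ) * W +
            (I.filter fun j => cl' j = m).card * (1 + δ / T))))) =
        (Cv * Cv * T ^ (ε / 4) * r) * (Cd * (δ * (9 ^ n * r * dK K ^ 2 * r ^ 2 * T ^ (ε / 4) *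
          ((∑ m ∈ I.image cl', ((I.filter fun j => cl' j = m).card : ℝ) ^ (1 / 2 : ℝ)) * W +
            (I.card : ℝ) * (1 + δ / T))))) := by
      have h3 : (I.card : ℝ) = ∑ m ∈ I.image cl', ((I.filter fun j => cl' j = m).card : ℝ) := by
        rw [Finset.card_eq_sum_card_image cl' I]
        push_cast
        rfl
      rw [h3]
      simp only [← Finset.mul_sum, Finset.sum_mul, ← Finset.sum_add_distrib]
    rw [h2]
    have h3 : (∑ m ∈ I.image cl', ((I.filter fun j => cl' j = m).card : ℝ) ^ (1 / 2 : ℝ)) * W ≤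
        Cc * C₁ * (R ^ (1 / 2 : ℝ) * (T / P ^ 3)) := by
      refine (mul_le_mul_of_nonneg_right (sum_root I cl') hW0).trans ?_
      rw [hW]
      exact cells_num (Nat.cast_nonneg _) (Nat.cast_nonneg _) hR0 hT0.le hP0 hCc hC₁1 hcells hIR
    gcongr
  have hMM : ∑ i ∈ I, ‖MP q Ψ (((l * k.radical : Ideal (𝓞 K)) : FI K) * M)
        ((κ : FI K) * M) y ω ρ (cq (s * k) (η i) M x₀) G (c i)‖ ≤ (I.card : ℝ) * (Cb * (1 + δ)) +
      (A.card : ℝ) * ((Cv * Cv * T ^ (ε / 4) * r) * (Cd * (δ * (9 ^ n * r * dK K ^ 2 * r ^ 2 *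
        T ^ (ε / 4) * (Cc * C₁ * (R ^ (1 / 2 : ℝ) * (T / P ^ 3)) +
          C₁ * R * (1 + δ / T)))))) := by
    calc ∑ i ∈ I, ‖MP q Ψ (((l * k.radical : Ideal (𝓞 K)) : FI K) * M)
            ((κ : FI K) * M) y ω ρ (cq (s * k) (η i) M x₀) G (c i)‖ ≤
        ∑ i ∈ I, (Cb * (1 + δ) + ∑ α ∈ A,
          ‖OQ q Ψ (Dl (((l * κ : Ideal (𝓞 K)) : FI K) * M) y ω α)
            (((l * k.radical : Ideal (𝓞 K)) : FI K) * M) y ω ρ (cq (s * k) (η i) M x₀) G (c i)‖) :=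
          Finset.sum_le_sum fun i hi => hA3 (cq (s * k) (η i) M x₀) (c i)
            (fun x _ => norm_cq_le (hmcJ i (hIJ hi)) M x₀ x)
      _ = (I.card : ℝ) * (Cb * (1 + δ)) + ∑ α ∈ A, ∑ i ∈ I,
          ‖OQ q Ψ (Dl (((l * κ : Ideal (𝓞 K)) : FI K) * M) y ω α)
            (((l * k.radical : Ideal (𝓞 K)) : FI K) * M) y ω ρ (cq (s * k) (η i) M x₀) G (c i)‖ := by
          rw [Finset.sum_add_distrib, Finset.sum_const, nsmul_eq_mul, Finset.sum_comm]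
      _ ≤ _ := by
          refine add_le_add le_rfl ?_
          refine (Finset.sum_le_sum hOD).trans ?_
          rw [Finset.sum_const, nsmul_eq_mul]
  have hmain : ∑ j ∈ J, ‖SQ p (((l * k.radical : Ideal (𝓞 K)) : FI K) * M) y ω ρ
      (cq (s * k) (η j) M x₀) (c j)‖ ^ 2 ≤
      Ca * (D * P * ((I.card : ℝ) * (Cb * (1 + δ)) +
      (A.card : ℝ) * ((Cv * Cv * T ^ (ε / 4) * r) * (Cd * (δ * (9 ^ n * r * dK K ^ 2 * r ^ 2 *
        T ^ (ε / 4) * (Cc * C₁ * (R ^ (1 / 2 : ℝ) * (T / P ^ 3)) +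
          C₁ * R * (1 + δ / T)))))))) := by
    calc ∑ j ∈ J, ‖SQ p (((l * k.radical : Ideal (𝓞 K)) : FI K) * M) y ω ρ
          (cq (s * k) (η j) M x₀) (c j)‖ ^ 2 ≤ _ := hsum
      _ = Ca * (D * P * ∑ i ∈ I, ‖MP q Ψ (((l * k.radical : Ideal (𝓞 K)) : FI K) * M)
            ((κ : FI K) * M) y ω ρ (cq (s * k) (η i) M x₀) G (c i)‖) := by
          rw [Finset.mul_sum, Finset.mul_sum]
      _ ≤ _ := by gcongr
  have hfin := coll (r := r) hCa hCb hCl (mul_nonneg hCv hCv) hCd hC₁0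
    (show 0 ≤ Cc * C₁ by positivity) (show 0 ≤ 9 ^ n * r by positivity) hD hP1 hδ0 hd1 hr1 hT1 hε
    hR0 hA hIR hQB hmain
  refine hfin.trans ?_
  have hB0 : 0 ≤ QB (s * k) κ τ G R := by rw [hQB]; positivity
  have hd0 : 0 ≤ dK K := by linarith
  have hX : 0 ≤ D * dK K ^ 2 * r ^ 3 * T ^ ε * QB (s * k) κ τ G R *
      ((1 + δ) * (1 + δ / T) ^ (3 / 2 : ℝ)) := by positivity
  have hc : Ca * (C₁ * Cb + Cb * Cl * (Cv * Cv) * Cd * (9 ^ n * r) * (Cc * C₁ + C₁)) ≤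
      Ca * (C₁ * Cb + Cb * Cl * (Cv * Cv) * Cd * 9 ^ n * (Cc * C₁ + C₁)) * r := by
    have h1 : C₁ * Cb ≤ C₁ * Cb * r := le_mul_of_one_le_right (by positivity) hr1
    calc Ca * (C₁ * Cb + Cb * Cl * (Cv * Cv) * Cd * (9 ^ n * r) * (Cc * C₁ + C₁)) ≤
        Ca * (C₁ * Cb * r + Cb * Cl * (Cv * Cv) * Cd * (9 ^ n * r) * (Cc * C₁ + C₁)) := by
          gcongr
      _ = _ := by ring
  refine (mul_le_mul_of_nonneg_right hc hX).trans (le_of_eq ?_)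
  ring

end Pool.Agent.H68.DF.Q1
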