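import Pool.Agent.H95.DR.Targets

/-! EMB: the embeddings of a real quadratic field and the norm. -/

set_option autoImplicit false

open MeasureTheory Set Filter NumberField
open scoped Real nonZeroDivisors Matrix MatrixGroups

namespace Pool.Agent.H68.DF

open Pool.Agent.H31.CN Pool.Agent.H89.FM Pool.Agent.H61.FM Pool.Agent.H89.FC Pool.Agent.H95.FC
open Pool.Agent.H89.DF Pool.Agent.H95.DR

section

variable {K : Type} [Field K] [NumberField K]

/-- the complex embedding -/
noncomputable def cem (σ : K →+* ℝ) : K →+* ℂ := Complex.ofRealHom.comp σ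

omit [NumberField K] in
lemma cem_apply (σ : K →+* ℝ) (a : K) : cem σ a = (σ a : ℂ) := rfl

lemma cem_ne {σ σ' : K →+* ℝ} (h : σ ≠ σ') :
    (cem σ).toRatAlgHom ≠ (cem σ').toRatAlgHom := by
  intro he
  apply h
  ext x
  exact Complex.ofReal_injective (DFunLike.congr_fun he x)

open scoped Classical in
lemma cem_univ {σ σ' : K →+* ℝ} (h : σ ≠ σ') (hr : Module.finrank ℚ K = 2) :
    (Finset.univ : Finset (K →ₐ[ℚ] ℂ)) = {(cem σ).toRatAlgHom, (cem σ').toRatAlgHom} := by
  classical
  symm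
  apply Finset.eq_of_subset_of_card_le (Finset.subset_univ _)
  rw [Finset.card_univ, AlgHom.card ℚ K ℂ, hr, Finset.card_pair (cem_ne h)]

lemma cem_or {σ σ' : K →+* ℝ} (h : σ ≠ σ') (hr : Module.finrank ℚ K = 2) (φ : K →+* ℂ) :
    φ = cem σ ∨ φ = cem σ' := by
  classical
  have h1 : φ.toRatAlgHom ∈ (Finset.univ : Finset (K →ₐ[ℚ] ℂ)) := Finset.mem_univ _
  rw [cem_univ h hr, Finset.mem_insert, Finset.mem_singleton] at h1
  rcases h1 with h1 | h1
  · left
    ext x
    exact DFunLike.congr_fun h1 x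
  · right
    ext x
    exact DFunLike.congr_fun h1 x

lemma nrm {σ σ' : K →+* ℝ} (h : σ ≠ σ') (hr : Module.finrank ℚ K = 2) (a : K) :
    ((Algebra.norm ℚ a : ℚ) : ℝ) = σ a * σ' a := by
  classical
  have h1 := Algebra.norm_eq_prod_embeddings ℚ ℂ a
  rw [cem_univ h hr, Finset.prod_pair (cem_ne h)] at h1
  have h2 : (((Algebra.norm ℚ a : ℚ) : ℝ) : ℂ) = ((σ a * σ' a : ℝ) : ℂ) := by
    push_cast
    exact h1
  exact Complex.ofReal_injective h2

end

theorem pf_EMB : Pool.Agent.H95.DR.T_EMB := by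
  intro K _ _ D σ σ' hRQ
  refine ⟨fun a => nrm hRQ.ne hRQ.rk a, fun a => ?_, fun B => ?_⟩
  · rw [Ideal.absNorm_span_singleton, ← nrm hRQ.ne hRQ.rk (a : K), ← Algebra.coe_norm_int,
      Nat.cast_natAbs]
    push_cast
    rfl
  · have h1 := NumberField.Embeddings.finite_of_norm_le K ℂ B
    refine Set.Finite.subset (h1.preimage
      (f := fun a : 𝓞 K => (a : K)) (RingOfIntegers.coe_injective.injOn)) ?_
    rintro a ⟨h2, h3⟩
    refine ⟨a.isIntegral_coe, fun φ => ?_⟩
    rcases cem_or hRQ.ne hRQ.rk φ with h | h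
    · rw [h, cem_apply, Complex.norm_real]
      exact h2
    · rw [h, cem_apply, Complex.norm_real]
      exact h3

end Pool.Agent.H68.DF
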