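import Pool.Agent.H89.DF.TargetsB

/-! UNF: unfolding a periodic integral. -/

set_option autoImplicit false

open MeasureTheory Set Filter
open scoped Real Matrix MatrixGroups Topology

namespace Pool.Agent.H68.DF

open Pool.Agent.H31.CN Pool.Agent.H89.FM Pool.Agent.H89.FC Pool.Agent.H89.DF

section gen

variable {α ι : Type} [MeasurableSpace α] [Countable ι] {μ : Measure α} {F : ι → α → ℂ}

lemma sum_lint (hF : ∀ i, Integrable (F i) μ) (hS : Summable fun i => ∫ a, ‖F i a‖ ∂μ) :
    ∫⁻ a, ∑' i, ‖F i a‖ₑ ∂μ ≠ ⊤ := by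
  rw [lintegral_tsum fun i => (hF i).1.enorm]
  have h1 : ∀ i, ∫⁻ a, ‖F i a‖ₑ ∂μ = ENNReal.ofReal (∫ a, ‖F i a‖ ∂μ) := fun i =>
    (ofReal_integral_norm_eq_lintegral_enorm (hF i)).symm
  simp_rw [h1]
  exact hS.tsum_ofReal_ne_top

lemma ae_summable (hF : ∀ i, Integrable (F i) μ) (hS : Summable fun i => ∫ a, ‖F i a‖ ∂μ) :
    ∀ᵐ a ∂μ, Summable fun i => ‖F i a‖ := by
  have h1 := sum_lint hF hS
  have hm : AEMeasurable (fun a => ∑' i, ‖F i a‖ₑ) μ :=
    AEMeasurable.tsum fun i => (hF i).1.enorm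
  filter_upwards [ae_lt_top' hm h1] with a ha
  have h2 : ∀ i, ‖F i a‖ₑ = ENNReal.ofReal ‖F i a‖ := fun i => (ofReal_norm _).symm
  simp_rw [h2] at ha
  have h3 := ENNReal.summable_toReal ha.ne
  simpa [ENNReal.toReal_ofReal] using h3

lemma integrable_tsum' (hF : ∀ i, Integrable (F i) μ) (hS : Summable fun i => ∫ a, ‖F i a‖ ∂μ) :
    Integrable (fun a => ∑' i, F i a) μ := by
  have hae := ae_summable hF hS
  refine ⟨?_, ?_⟩
  · refine aestronglyMeasurable_of_tendsto_ae (f := fun (s : Finset ι) a => ∑ i ∈ s, F i a)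
      (u := atTop) ?_ ?_
    · intro s
      exact Finset.aestronglyMeasurable_fun_sum s fun i _ => (hF i).1
    · filter_upwards [hae] with a ha
      exact ha.of_norm.hasSum
  · refine lt_of_le_of_lt (lintegral_mono_ae ?_) (lt_top_iff_ne_top.2 (sum_lint hF hS))
    filter_upwards [hae] with a ha
    exact enorm_tsum_le_tsum_enorm

end gen

/-- periodisation -/
lemma per {G : Type} [NormedAddCommGroup G] [NormedSpace ℝ G] [CompleteSpace G] {f : ℝ → G}
    (hf : Integrable f) {P : ℝ} (hP : 0 < P) :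
    HasSum (fun k : ℤ => ∫ τ in (0 : ℝ)..P, f (τ + k * P)) (∫ τ, f τ) := by
  have h1 : Integrable (fun u => f (u * P)) := hf.comp_mul_right' hP.ne'
  have h2 := h1.hasSum_intervalIntegral_comp_add_int
  have h3 : ∀ k : ℤ, ∫ x in (0 : ℝ)..1, f ((x + k) * P) = P⁻¹ • ∫ τ in (0 : ℝ)..P, f (τ + k * P) := by
    intro k
    have := intervalIntegral.integral_comp_mul_right (fun τ => f (τ + k * P)) (a := 0) (b := 1)
      hP.ne'
    rw [zero_mul, one_mul] at this
    rw [← this]
    congr 1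
    funext x
    rw [add_mul]
  have h4 : ∫ u, f (u * P) = P⁻¹ • ∫ τ, f τ := by
    rw [Measure.integral_comp_mul_right, abs_of_pos (inv_pos.2 hP)]
  simp_rw [h3, h4] at h2
  have h5 := h2.const_smul P
  simpa only [smul_smul, mul_inv_cancel₀ hP.ne', one_smul] using h5

section main

variable {Ω : Type} (E : Equiv.Perm Ω) {l : Ω → ℝ} {P : ℝ}

lemma l_zpow (h : ∀ x, l (E x) = l x + P) (k : ℤ) : ∀ x, l ((E ^ k) x) = l x + k * P := by
  have hi : ∀ x, l (E⁻¹ x) = l x - P := by
    intro x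
    have h1 := h (E⁻¹ x)
    have h2 : E (E⁻¹ x) = x := E.apply_symm_apply x
    rw [h2] at h1
    linarith
  induction k using Int.induction_on with
  | zero => intro x; simp
  | succ n ih =>
    intro x
    rw [zpow_add_one, Equiv.Perm.mul_apply, ih, h]
    push_cast
    ring
  | pred n ih =>
    intro x
    rw [zpow_sub_one, Equiv.Perm.mul_apply, ih, hi]
    push_cast
    ring

lemma g_zpow {β : Type} {g : Ω → β} (h : ∀ x, g (E x) = g x) (k : ℤ) :
    ∀ x, g ((E ^ k) x) = g x := by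
  have hi : ∀ x, g (E⁻¹ x) = g x := by
    intro x
    have h1 := h (E⁻¹ x)
    have h2 : E (E⁻¹ x) = x := E.apply_symm_apply x
    rw [h2] at h1
    exact h1.symm
  induction k using Int.induction_on with
  | zero => intro x; simp
  | succ n ih =>
    intro x
    rw [zpow_add_one, Equiv.Perm.mul_apply, ih, h]
  | pred n ih =>
    intro x
    rw [zpow_sub_one, Equiv.Perm.mul_apply, ih, hi]

/-- the fundamental set -/
def S0 (l : Ω → ℝ) (P : ℝ) : Set Ω := {x | 0 ≤ l x ∧ l x < P}

lemma bij (hP : 0 < P) (h : ∀ x, l (E x) = l x + P) :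
    Function.Bijective (fun p : S0 l P × ℤ => (E ^ p.2) (p.1 : Ω)) := by
  have hk : ∀ (x : S0 l P) (k : ℤ), ⌊l ((E ^ k) (x : Ω)) / P⌋ = k := by
    intro x k
    rw [l_zpow E h, add_div, mul_div_assoc, div_self hP.ne', mul_one, Int.floor_add_intCast]
    have : ⌊l (x : Ω) / P⌋ = 0 := by
      rw [Int.floor_eq_zero_iff]
      exact ⟨div_nonneg x.2.1 hP.le, (div_lt_one hP).2 x.2.2⟩
    rw [this, zero_add]
  constructor
  · rintro ⟨x, k⟩ ⟨y, m⟩ he
    simp only at he
    have h1 : k = m := by rw [← hk x k, ← hk y m, he]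
    subst h1
    have h2 : (x : Ω) = y := (E ^ k).injective he
    exact Prod.ext (Subtype.ext h2) rfl
  · intro y
    refine ⟨(⟨(E ^ (-⌊l y / P⌋)) y, ?_⟩, ⌊l y / P⌋), ?_⟩
    · show 0 ≤ l _ ∧ l _ < P
      rw [l_zpow E h]
      have h1 := Int.floor_le (l y / P)
      have h2 := Int.lt_floor_add_one (l y / P)
      rw [le_div_iff₀ hP] at h1
      rw [div_lt_iff₀ hP] at h2
      push_cast
      constructor
      · linarith
      · linarith
    · simp only
      rw [← Equiv.Perm.mul_apply, ← zpow_add, add_neg_cancel, zpow_zero, Equiv.Perm.one_apply]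

end main

/-- the character -/
noncomputable def ex (ν τ : ℝ) : ℂ := Complex.exp (-(((ν * τ : ℝ) : ℂ) * Complex.I))

lemma ex_norm (ν τ : ℝ) : ‖ex ν τ‖ = 1 := by
  unfold ex
  rw [← neg_mul, ← Complex.ofReal_neg, Complex.norm_exp_ofReal_mul_I]

lemma ex_cont (ν : ℝ) : Continuous (ex ν) := by
  unfold ex
  fun_prop

lemma ex_int {φ : ℝ → ℂ} (hφ : Integrable φ) (ν : ℝ) : Integrable (fun τ => φ τ * ex ν τ) :=
  hφ.mul_bdd (c := 1) (ex_cont ν).aestronglyMeasurable
    (Eventually.of_forall fun τ => (ex_norm ν τ).le)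

lemma ex_add (ν a b : ℝ) : ex ν (a + b) = ex ν a * ex ν b := by
  unfold ex
  rw [← Complex.exp_add]
  congr 1
  push_cast
  ring

lemma ex_per {ν P : ℝ} (h : Complex.exp (((ν * P : ℝ) : ℂ) * Complex.I) = 1) (k : ℤ) :
    ex ν (k * P) = 1 := by
  unfold ex
  have : -(((ν * (k * P) : ℝ) : ℂ) * Complex.I) = ((-k : ℤ) : ℂ) * (((ν * P : ℝ) : ℂ) * Complex.I) := by
    push_cast
    ring
  rw [this, Complex.exp_int_mul, h, one_zpow]

theorem pf_UNF : Pool.Agent.H89.DF.T_UNF := by
  classical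
  intro Ω _ E l P ν g hP hl hg hi hν hS
  set e : S0 l P × ℤ ≃ Ω := Equiv.ofBijective _ (bij E hP hl) with he
  have hel : ∀ (x : S0 l P) (k : ℤ), l (e (x, k)) = l x + k * P := fun x k => l_zpow E hl k x
  have heg : ∀ (x : S0 l P) (k : ℤ), g (e (x, k)) = g x := fun x k => g_zpow E hg k x
  -- the sum over the fundamental set
  have hS0 : Summable fun x : S0 l P => ∫ τ : ℝ, ‖g x τ‖ := by
    have h1 : (fun x : Ω => if 0 ≤ l x ∧ l x < P then ∫ τ : ℝ, ‖g x τ‖ else 0) =
        (S0 l P).indicator fun x => ∫ τ : ℝ, ‖g x τ‖ := by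
      funext x
      by_cases hx : x ∈ S0 l P
      · rw [indicator_of_mem hx, if_pos (show 0 ≤ l x ∧ l x < P from hx)]
      · rw [indicator_of_notMem hx, if_neg (show ¬ (0 ≤ l x ∧ l x < P) from hx)]
    rw [h1] at hS
    exact summable_subtype_iff_indicator.2 hS
  -- the functions
  set F : S0 l P × ℤ → ℝ → ℂ := fun p τ => g (e p) (τ + l (e p)) * ex ν τ with hF
  have hFi : ∀ p, Integrable (F p) := fun p => ex_int ((hi (e p)).comp_add_right (l (e p))) ν
  have hFi' : ∀ p, Integrable (F p) (volume.restrict (Ioc 0 P)) := fun p => (hFi p).restrict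
  have hnorm : ∀ (x : S0 l P) (k : ℤ) τ, ‖F (x, k) τ‖ = ‖g x (τ + k * P + l x)‖ := by
    intro x k τ
    simp only [hF, norm_mul, ex_norm, mul_one, hel, heg]
    congr 2
    ring
  have hFe : ∀ (x : S0 l P) (k : ℤ) τ, F (x, k) τ = g x (τ + k * P + l x) * ex ν (τ + k * P) := by
    intro x k τ
    rw [ex_add, ex_per hν, mul_one]
    simp only [hF, hel, heg]
    congr 2
    ring
  have hk : ∀ x : S0 l P, HasSum (fun k : ℤ => ∫ τ in Ioc 0 P, ‖F (x, k) τ‖)
      (∫ τ : ℝ, ‖g x τ‖) := by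
    intro x
    have h1 : Integrable (fun τ => ‖g x (τ + l x)‖) := ((hi x).comp_add_right (l x)).norm
    have h2 := per h1 hP
    rw [integral_add_right_eq_self (fun τ => ‖g x τ‖) (l x)] at h2
    simp only [intervalIntegral.integral_of_le hP.le] at h2
    simp only [hnorm]
    exact h2
  have hsum : Summable fun p => ∫ τ in Ioc 0 P, ‖F p τ‖ := by
    rw [summable_prod_of_nonneg fun p => integral_nonneg fun τ => norm_nonneg _]
    refine ⟨fun x => (hk x).summable, ?_⟩
    simp only [fun x => (hk x).tsum_eq]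
    exact hS0
  -- almost everywhere summability
  have hae0 := ae_summable hFi' hsum
  have hcv : ∀ τ, (Summable fun p => ‖F p τ‖) ↔ Summable fun x => ‖g x (τ + l x)‖ := by
    intro τ
    rw [← e.summable_iff]
    simp only [hF, norm_mul, ex_norm, mul_one]
    rfl
  have hperS : ∀ τ, (Summable fun x => ‖g x (τ + l x)‖) →
      ∀ k : ℤ, Summable fun x => ‖g x (τ + k * P + l x)‖ := by
    intro τ h k
    rw [← (E ^ k).summable_iff] at h
    refine h.congr fun x => ?_
    simp only [Function.comp_apply, l_zpow E hl, g_zpow E hg]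
    congr 2
    ring
  have hae : ∀ᵐ τ : ℝ, Summable (fun x => ‖g x (τ + l x)‖) := by
    have h1 : volume {τ : ℝ | τ ∈ Ioc 0 P ∧ ¬ Summable fun x => ‖g x (τ + l x)‖} = 0 := by
      rw [ae_restrict_iff' measurableSet_Ioc] at hae0
      rw [← nonpos_iff_eq_zero]
      refine (measure_mono ?_).trans (ae_iff.1 hae0).le
      rintro τ ⟨h2, h3⟩ h4
      exact h3 ((hcv τ).1 (h4 h2))
    rw [ae_iff]
    refine measure_mono_null (t := ⋃ k : ℤ, (fun τ : ℝ => τ + k * P) ⁻¹'
      {τ : ℝ | τ ∈ Ioc 0 P ∧ ¬ Summable fun x => ‖g x (τ + l x)‖}) ?_ ?_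
    · intro τ hτ
      have h2 := toIocMod_mem_Ioc hP 0 τ
      rw [zero_add] at h2
      have h3 : toIocMod hP 0 τ = τ + (-toIocDiv hP 0 τ : ℤ) * P := by
        have := toIocMod_add_toIocDiv_zsmul hP 0 τ
        rw [zsmul_eq_mul] at this
        push_cast
        linarith
      refine mem_iUnion.2 ⟨-toIocDiv hP 0 τ, ?_⟩
      rw [mem_preimage, ← h3]
      refine ⟨h2, fun h4 => hτ ?_⟩
      have h5 := hperS _ h4 (toIocDiv hP 0 τ)
      refine h5.congr fun x => ?_
      rw [h3]
      congr 2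
      push_cast
      ring
    · refine measure_iUnion_null fun k => ?_
      rw [measure_preimage_add_right]
      exact h1
  -- the tsum
  have hts : ∀ τ, ∑' p, F p τ = (∑' x, g x (τ + l x)) * ex ν τ := by
    intro τ
    rw [← tsum_mul_right, ← e.tsum_eq (fun x => g x (τ + l x) * ex ν τ)]
  have hI := integrable_tsum' hFi' hsum
  have hH := hasSum_integral_of_summable_integral_norm hFi' hsum
  simp only [hts] at hI hH
  refine ⟨hae, ?_, ?_⟩
  · rw [intervalIntegrable_iff_integrableOn_Ioc_of_le hP.le]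
    exact hI
  · rw [intervalIntegral.integral_of_le hP.le]
    have hfib : ∀ x : S0 l P, HasSum (fun k : ℤ => ∫ τ in Ioc 0 P, F (x, k) τ)
        (Complex.exp (((ν * l x : ℝ) : ℂ) * Complex.I) * ∫ τ : ℝ, g x τ * ex ν τ) := by
      intro x
      have h1 : Integrable (fun τ => g x (τ + l x) * ex ν τ) :=
        ex_int ((hi x).comp_add_right (l x)) ν
      have h2 := per h1 hP
      have h3 : ∫ τ, g x (τ + l x) * ex ν τ =
          Complex.exp (((ν * l x : ℝ) : ℂ) * Complex.I) * ∫ τ : ℝ, g x τ * ex ν τ := by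
        rw [← integral_const_mul, ← integral_add_right_eq_self (fun τ =>
          Complex.exp (((ν * l x : ℝ) : ℂ) * Complex.I) * (g x τ * ex ν τ)) (l x)]
        congr 1
        funext τ
        have h4 : Complex.exp (((ν * l x : ℝ) : ℂ) * Complex.I) * ex ν (l x) = 1 := by
          unfold ex
          rw [← Complex.exp_add, add_neg_cancel, Complex.exp_zero]
        rw [ex_add]
        linear_combination (-(g x (τ + l x) * ex ν τ)) * h4
      rw [h3] at h2
      simp only [intervalIntegral.integral_of_le hP.le] at h2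
      simp only [hFe]
      exact h2
    have h5 := hH.prod_fiberwise hfib
    have h6 : (fun x : Ω => if 0 ≤ l x ∧ l x < P then
        Complex.exp (((ν * l x : ℝ) : ℂ) * Complex.I) *
        ∫ τ : ℝ, g x τ * Complex.exp (-(((ν * τ : ℝ) : ℂ) * Complex.I)) else 0) =
        (S0 l P).indicator fun x => Complex.exp (((ν * l x : ℝ) : ℂ) * Complex.I) *
        ∫ τ : ℝ, g x τ * ex ν τ := by
      funext x
      by_cases hx : x ∈ S0 l P
      · rw [indicator_of_mem hx, if_pos (show 0 ≤ l x ∧ l x < P from hx)]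
        rfl
      · rw [indicator_of_notMem hx, if_neg (show ¬ (0 ≤ l x ∧ l x < P) from hx)]
    rw [h6]
    exact hasSum_subtype_iff_indicator.1 h5

end Pool.Agent.H68.DF
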