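import Pool.Agent.H89.DF.TargetsB

/-! UNR: unfolding a periodic integral of a nonnegative function. -/

set_option autoImplicit false

open MeasureTheory Set Filter
open scoped Real Matrix MatrixGroups Topology

namespace Pool.Agent.H68.DF

open Pool.Agent.H31.CN Pool.Agent.H89.FM Pool.Agent.H89.FC Pool.Agent.H89.DF

theorem pf_UNR (hUNF : Pool.Agent.H89.DF.T_UNF) : T_UNR := by
  classical
  intro Ω _ E l P g hP hl hg hi hn hS
  obtain ⟨h1, h2, h3⟩ := hUNF Ω E l P 0 (fun x τ => (g x τ : ℂ)) hP hl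
    (fun x => by funext τ; rw [hg]) (fun x => (hi x).ofReal) (by simp) (by
      refine hS.congr fun x => ?_
      have : ∀ τ, ‖(g x τ : ℂ)‖ = g x τ := fun τ => by
        rw [Complex.norm_real, Real.norm_of_nonneg (hn x τ)]
      simp only [this])
  have hz : ∀ τ : ℝ, Complex.exp (-(((0 * τ : ℝ) : ℂ) * Complex.I)) = 1 := by
    intro τ
    simp
  have hz' : ∀ τ : ℝ, Complex.exp (((0 * τ : ℝ) : ℂ) * Complex.I) = 1 := by
    intro τ
    simp
  have ht : ∀ τ : ℝ, ∑' x, (g x (τ + l x) : ℂ) = ((∑' x, g x (τ + l x) : ℝ) : ℂ) := fun τ =>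
    (Complex.ofReal_tsum _).symm
  simp only [hz, hz', mul_one, one_mul, ht] at h2 h3
  refine ⟨?_, ?_, ?_⟩
  · filter_upwards [h1] with τ hτ
    refine hτ.congr fun x => ?_
    rw [Complex.norm_real, Real.norm_of_nonneg (hn _ _)]
  · have h4 : IntervalIntegrable (fun τ => (((∑' x, g x (τ + l x) : ℝ) : ℂ)).re) volume 0 P := by
      rw [intervalIntegrable_iff_integrableOn_Ioc_of_le hP.le] at h2 ⊢
      exact h2.re
    simpa only [Complex.ofReal_re] using h4
  · rw [← Complex.hasSum_ofReal, ← intervalIntegral.integral_ofReal]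
    have e : (fun x : Ω => ((if 0 ≤ l x ∧ l x < P then ∫ τ : ℝ, g x τ else 0 : ℝ) : ℂ)) =
        fun x => if 0 ≤ l x ∧ l x < P then ∫ τ : ℝ, (g x τ : ℂ) else 0 := by
      funext x
      by_cases hx : 0 ≤ l x ∧ l x < P
      · rw [if_pos hx, if_pos hx, integral_complex_ofReal]
      · rw [if_neg hx, if_neg hx, Complex.ofReal_zero]
    rw [e]
    exact h3

end Pool.Agent.H68.DF
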